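import Mathlib
import Pool.Agent.Helper620.Wg.KQ
import Pool.Agent.Helper620.Wg.KZ

set_option autoImplicit false

open Complex Filter Topology Set Wg

namespace H171FV

theorem E_bound (w : ℂ) (hw : ‖w‖ ≤ 1 / 2) :
    ‖(1 - w) * exp (w + w ^ 2 / 2) - 1‖ ≤ 4 * ‖w‖ ^ 3 := by
  set x : ℂ := w + w ^ 2 / 2 with hx
  have hw0 : 0 ≤ ‖w‖ := norm_nonneg w
  have hxn : ‖x‖ ≤ 5 / 4 * ‖w‖ := by
    calc ‖x‖ ≤ ‖w‖ + ‖w ^ 2 / 2‖ := norm_add_le _ _
      _ = ‖w‖ + ‖w‖ ^ 2 / 2 := by simp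
      _ ≤ 5 / 4 * ‖w‖ := by nlinarith
  have hx1 : ‖x‖ ≤ 1 := by linarith
  have h1 := Complex.exp_bound hx1 (n := 3) (by norm_num)
  have h2 : (∑ m ∈ Finset.range 3, x ^ m / (m.factorial : ℂ)) = 1 + x + x ^ 2 / 2 := by
    simp [Finset.sum_range_succ, Nat.factorial]
  rw [h2] at h1
  have h3 : ‖exp x - (1 + x + x ^ 2 / 2)‖ ≤ ‖w‖ ^ 3 := by
    refine h1.trans ?_
    have : ((3 : ℕ).succ : ℝ) * (((3 : ℕ).factorial : ℝ) * (3 : ℕ))⁻¹ = 2 / 9 := by
      norm_num [Nat.factorial]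
    rw [this]
    have h4 : ‖x‖ ^ 3 ≤ (5 / 4 * ‖w‖) ^ 3 := by gcongr
    have h5 : 0 ≤ ‖w‖ ^ 3 := by positivity
    nlinarith
  have e : (1 - w) * exp x - 1 =
      (1 - w) * (exp x - (1 + x + x ^ 2 / 2)) + w ^ 3 * (-(1 / 2) - 3 / 8 * w - 1 / 8 * w ^ 2) := by
    rw [hx]; ring
  rw [e]
  have h6 : ‖1 - w‖ ≤ 3 / 2 := by
    calc ‖1 - w‖ ≤ ‖(1 : ℂ)‖ + ‖w‖ := norm_sub_le _ _
      _ ≤ 3 / 2 := by rw [norm_one]; linarith
  have h7 : ‖-(1 / 2) - 3 / 8 * w - 1 / 8 * w ^ 2‖ ≤ 1 := by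
    calc ‖-(1 / 2) - 3 / 8 * w - 1 / 8 * w ^ 2‖
        ≤ ‖-(1 / 2) - 3 / 8 * w‖ + ‖1 / 8 * w ^ 2‖ := norm_sub_le _ _
      _ ≤ ‖(-(1 / 2) : ℂ)‖ + ‖3 / 8 * w‖ + ‖1 / 8 * w ^ 2‖ := by gcongr; exact norm_sub_le _ _
      _ = 1 / 2 + 3 / 8 * ‖w‖ + 1 / 8 * ‖w‖ ^ 2 := by simp
      _ ≤ 1 := by nlinarith
  calc _ ≤ ‖1 - w‖ * ‖exp x - (1 + x + x ^ 2 / 2)‖
        + ‖w‖ ^ 3 * ‖-(1 / 2) - 3 / 8 * w - 1 / 8 * w ^ 2‖ := by
          refine (norm_add_le _ _).trans ?_
          rw [norm_mul, norm_mul, norm_pow]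
    _ ≤ 3 / 2 * ‖w‖ ^ 3 + ‖w‖ ^ 3 * 1 := by gcongr
    _ ≤ 4 * ‖w‖ ^ 3 := by
      have h5 : 0 ≤ ‖w‖ ^ 3 := by positivity
      linarith

/-- one factor of the sigma product -/
noncomputable def fac (l z : ℂ) : ℂ :=
  if l = 0 then z else (1 - z / l) * exp (z / l + (z / l) ^ 2 / 2)

theorem fac_diff (l : ℂ) : Differentiable ℂ (fac l) := by
  unfold fac
  split_ifs
  · exact differentiable_id
  · fun_prop

theorem fac_bound (r : ℝ) (hr : 0 < r) (s : ℂ) (hs : ‖s‖ < r) (l : ℂ) (h : 2 * r ≤ ‖l‖) :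
    ‖fac l s - 1‖ ≤ 4 * r ^ 3 * ‖l‖ ^ (-3 : ℝ) := by
  have hl : 0 < ‖l‖ := by linarith
  have hl0 : l ≠ 0 := norm_pos_iff.mp hl
  unfold fac
  rw [if_neg hl0]
  have h1 : ‖s / l‖ ≤ 1 / 2 := by
    rw [norm_div, div_le_iff₀ hl]; linarith
  refine (E_bound _ h1).trans ?_
  rw [norm_div, div_pow, Real.rpow_neg hl.le]
  have : ‖l‖ ^ (3 : ℝ) = ‖l‖ ^ 3 := by norm_cast
  rw [this, mul_assoc, ← div_eq_mul_inv]
  gcongr

theorem fac_evt (r : ℝ) (hr : 0 < r) : ∀ᶠ l : L0.lattice in cofinite,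
    ∀ s ∈ Metric.ball (0 : ℂ) r, ‖fac l s - 1‖ ≤ 4 * r ^ 3 * ‖(l : ℂ)‖ ^ (-3 : ℝ) := by
  refine (isCompact_iff_finite.mp (isCompact_closedBall (0 : L0.lattice) (2 * r))).subset ?_
  intro l hl
  simp only [Metric.mem_closedBall, dist_zero_right]
  by_contra hc
  push Not at hc
  apply hl
  intro s hs
  exact fac_bound r hr s (by simpa using hs) l hc.le

theorem fac_summ (r : ℝ) : Summable fun l : L0.lattice => 4 * r ^ 3 * ‖(l : ℂ)‖ ^ (-3 : ℝ) :=
  (ZLattice.summable_norm_rpow _ _ (by simp; norm_num)).mul_left _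

/-- the sigma function of the square lattice -/
noncomputable def sg (z : ℂ) : ℂ := ∏' l : L0.lattice, fac l z

theorem sg_unif (r : ℝ) (hr : 0 < r) : HasProdLocallyUniformlyOn
    (fun (l : L0.lattice) z => fac l z) sg (Metric.ball (0 : ℂ) r) := by
  have h := Summable.hasProdLocallyUniformlyOn_one_add (f := fun (l : L0.lattice) z => fac l z - 1)
    (Metric.isOpen_ball (x := (0 : ℂ)) (ε := r)) (fac_summ r) (fac_evt r hr)
    (fun l => ((fac_diff l).continuous.sub continuous_const).continuousOn)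
  simp only [add_sub_cancel] at h
  exact h

theorem sg_diff : Differentiable ℂ sg := by
  intro z
  have hr : (0 : ℝ) < ‖z‖ + 1 := by positivity
  have h := (sg_unif (‖z‖ + 1) hr).differentiableOn
    (.of_forall fun s ↦ by
      have : DifferentiableOn ℂ (fun w => ∏ l ∈ s, fac (l : ℂ) w) (Metric.ball (0 : ℂ) (‖z‖ + 1)) :=
        DifferentiableOn.fun_finsetProd (fun l _ ↦ (fac_diff l).differentiableOn)
      exact this) Metric.isOpen_ball
  exact h.differentiableAt (Metric.isOpen_ball.mem_nhds (by simp))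

theorem fac_ne {l z : ℂ} (hl : l ∈ L0.lattice) (hz : z ∉ Lam) : fac l z ≠ 0 := by
  have hz0 : z ≠ 0 := by rintro rfl; exact hz Lam.zero_mem
  unfold fac
  split_ifs with h
  · exact hz0
  · refine mul_ne_zero ?_ (exp_ne_zero _)
    intro h1
    apply hz
    have : z = l := by
      field_simp at h1
      linear_combination -h1
    rw [this]
    exact (mem_L0 l).1 hl

theorem sg_ne {z : ℂ} (hz : z ∉ Lam) : sg z ≠ 0 := by
  have h := tprod_one_add_ne_zero_of_summable (f := fun l : L0.lattice => fac l z - 1)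
    (fun l => by simpa using fac_ne l.2 hz) ?_
  · simpa [sg] using h
  · have hr : (0 : ℝ) < ‖z‖ + 1 := by positivity
    refine (fac_summ (‖z‖ + 1)).of_norm_bounded_eventually ?_
    filter_upwards [fac_evt (‖z‖ + 1) hr] with l hl
    simpa using hl z (by simp)

/-- the zeta function -/
noncomputable def zt (z : ℂ) : ℂ := ∑' l : L0.lattice, (1 / (z - l) + 1 / l + z / l ^ 2)

theorem zE_eq (z : ℂ) : zE L0 (L0.ω₁ / 2) z = zt z := by
  have hω := L0.ω₁_div_two_notMem_lattice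
  unfold zE zt
  congr with l
  rw [if_neg]
  intro e
  exact hω (e ▸ l.2)

theorem zt_summ (z : ℂ) : Summable fun l : L0.lattice => (1 / (z - l) + 1 / l + z / (l : ℂ) ^ 2) := by
  have hω := L0.ω₁_div_two_notMem_lattice
  have h := (hs_zE L0 (L0.ω₁ / 2)).hasSum (x := z)
  refine h.summable.congr ?_
  intro l
  rw [if_neg]
  intro e
  exact hω (e ▸ l.2)

theorem fac_logDeriv (l z : ℂ) (hz : z ≠ l) (hz0 : z ≠ 0) :
    logDeriv (fac l) z = 1 / (z - l) + 1 / l + z / l ^ 2 := by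
  by_cases hl : l = 0
  · have : fac l = fun z => z := by
      ext w; simp [fac, hl]
    rw [this, hl]
    simp [logDeriv]
  · have e : fac l = fun w => (1 - w / l) * exp (w / l + (w / l) ^ 2 / 2) := by
      ext w; simp [fac, hl]
    have h1 : HasDerivAt (fun w : ℂ => w / l) (1 / l) z := (hasDerivAt_id z).div_const l
    have h2 : HasDerivAt (fun w : ℂ => 1 - w / l) (-(1 / l)) z := by
      simpa using h1.const_sub 1
    have h3 : HasDerivAt (fun w : ℂ => w / l + (w / l) ^ 2 / 2) (1 / l + (z / l) * (1 / l)) z := by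
      have := h1.add ((h1.pow 2).div_const 2)
      refine this.congr_deriv ?_
      push_cast
      ring
    have h4 := h2.mul h3.cexp
    have hne : (1 : ℂ) - z / l ≠ 0 := by
      intro h
      apply hz
      field_simp at h
      linear_combination -h
    have hne2 : z - l ≠ 0 := sub_ne_zero.2 hz
    rw [e, logDeriv_apply]
    have h5 : deriv (fun w => (1 - w / l) * exp (w / l + (w / l) ^ 2 / 2)) z = _ := h4.deriv
    rw [h5]
    have hE := exp_ne_zero (z / l + (z / l) ^ 2 / 2)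
    have h6 : (1 : ℂ) - z / l = -(z - l) / l := by field_simp; ring
    rw [h6]
    field_simp
    ring

theorem sg_deriv {z : ℂ} (hz : z ∉ Lam) : deriv sg z = zt z * sg z := by
  have hz0 : z ≠ 0 := by rintro rfl; exact hz Lam.zero_mem
  have hr : (0 : ℝ) < ‖z‖ + 1 := by positivity
  have hl : ∀ l : L0.lattice, z ≠ l := by
    intro l h
    apply hz
    rw [h]
    exact (mem_L0 l).1 l.2
  have e : ∀ l : L0.lattice, logDeriv (fac l) z = 1 / (z - l) + 1 / l + z / (l : ℂ) ^ 2 :=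
    fun l => fac_logDeriv l z (hl l) hz0
  have h := logDeriv_tprod_eq_tsum (f := fun (l : L0.lattice) => fac l) (Metric.isOpen_ball (x := (0 : ℂ)) (ε := ‖z‖ + 1))
    (x := z) (by simp) (fun l => fac_ne l.2 hz) (fun l => (fac_diff l).differentiableOn)
    (by simpa only [e] using zt_summ z)
    (sg_unif _ hr).multipliableLocallyUniformlyOn (sg_ne hz)
  simp only [e] at h
  have h2 : logDeriv sg z = zt z := h
  rw [logDeriv_apply, div_eq_iff (sg_ne hz)] at h2
  exact h2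

theorem zt_neg (z : ℂ) : zt (-z) = - zt z := by
  unfold zt
  rw [← tsum_neg, ← (Equiv.neg L0.lattice).tsum_eq]
  congr with l
  simp
  by_cases h : z = -(l : ℂ)
  · subst h
    by_cases hl : (l : ℂ) = 0
    · simp [hl]
    · field_simp
      simp
      norm_num
  · have h1 : z + (l : ℂ) ≠ 0 := fun e => h (by linear_combination e)
    rw [show -z + (l : ℂ) = -(z - l) by ring, inv_neg]
    ring

theorem zt_deriv {z : ℂ} (hz : z ∉ Lam) : HasDerivAt zt (- L0.weierstrassP z) z := by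
  have hω := L0.ω₁_div_two_notMem_lattice
  have hz' : z ∉ L0.lattice := fun h => hz ((mem_L0 z).1 h)
  have hmem : z ∈ ((L0.lattice : Set ℂ) \ {L0.ω₁ / 2})ᶜ := fun h => hz' h.1
  have h1 := (diff_zE L0 (L0.ω₁ / 2)).differentiableAt (L0.isOpen_compl_lattice_sdiff.mem_nhds hmem)
  have h2 := deriv_zE L0 (L0.ω₁ / 2) hmem
  have h3 := h1.hasDerivAt
  rw [h2] at h3
  have h4 : zE L0 (L0.ω₁ / 2) = zt := funext zE_eq
  rw [h4] at h3
  simpa only [L0.weierstrassPExcept_of_notMem _ hω] using h3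

theorem zt_an : AnalyticAt ℂ (fun z => zt z - 1 / z) 0 := by
  have hA : AnalyticAt ℂ (zE L0 0) 0 := by
    apply (diff_zE L0 0).analyticAt
    exact L0.isOpen_compl_lattice_sdiff.mem_nhds (by simp)
  refine hA.congr (Filter.Eventually.of_forall fun z => ?_)
  have hs1 : Summable (fun l : L0.lattice => if l.1 = 0 then 0 else (1 / (z - (l:ℂ)) + 1 / (l:ℂ) + z / (l:ℂ) ^ 2)) :=
    (hs_zE L0 0).hasSum.summable
  have hs2 : Summable (fun l : L0.lattice => if l = 0 then (1 / z : ℂ) else 0) :=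
    (hasSum_ite_eq (0 : L0.lattice) (1 / z : ℂ)).summable
  have : zt z = zE L0 0 z + 1 / z := by
    have e2 : (1 / z : ℂ) = ∑' l : L0.lattice, if l = 0 then (1 / z : ℂ) else 0 :=
      (hasSum_ite_eq (0 : L0.lattice) (1 / z : ℂ)).tsum_eq.symm
    rw [e2]
    unfold zE zt
    rw [← hs1.tsum_add hs2]
    congr with l
    by_cases h : l = 0
    · subst h
      simp
    · have h' : (l : ℂ) ≠ 0 := by simpa using h
      simp [h]
  show zE L0 0 z = zt z - 1 / z
  rw [this]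
  ring

theorem exists_eta : ∃ η : ℂ, η ≠ 0 ∧ (∀ z ∉ Lam, zt (z + 1) = zt z + η) ∧
    (∀ z ∉ Lam, zt (z + I) = zt z - I * η) :=
  zeta_quasi (fun _ hz => zt_deriv hz) zt_neg zt_an

theorem zt_I {z : ℂ} : zt (I * z) = - (I * zt z) := by
  have hI : ∀ l : ℂ, l ∈ L0.lattice → I * l ∈ L0.lattice := fun l hl =>
    (mem_L0 _).2 (mem_L0_I_mul ((mem_L0 _).1 hl))
  have hII : ∀ l : ℂ, I * (I * l) = - l := fun l => by linear_combination l * I_mul_I
  let e : L0.lattice ≃ L0.lattice :=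
    { toFun := fun l => ⟨I * l.1, hI _ l.2⟩
      invFun := fun l => ⟨-(I * l.1), neg_mem (hI _ l.2)⟩
      left_inv := fun l => by
        apply Subtype.ext
        show -(I * (I * l.1)) = l.1
        rw [hII]; ring
      right_inv := fun l => by
        apply Subtype.ext
        show I * (-(I * l.1)) = l.1
        rw [mul_neg, hII]; ring }
  unfold zt
  rw [← e.tsum_eq, ← neg_mul, ← tsum_mul_left]
  congr with l
  show 1 / (I * z - I * l.1) + 1 / (I * l.1) + I * z / (I * l.1) ^ 2 = _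
  have h1 : (I : ℂ)⁻¹ = -I := inv_I
  rw [← mul_sub, one_div, one_div, mul_inv, mul_inv, h1, mul_pow, I_sq]
  field_simp
  ring

end H171FV
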