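import Mathlib
import Pool.Agent.Helper620.Wg.KK
import Pool.Agent.H171R3.FV.Sig

set_option autoImplicit false

open Complex Filter Topology Set Wg

namespace H171FV

/-- the Weierstrass function of the square lattice -/
noncomputable abbrev wp (z : ℂ) : ℂ := L0.weierstrassP z

theorem wp_neg (z : ℂ) : wp (-z) = wp z := L0.weierstrassP_neg z

theorem wp_add {l : ℂ} (hl : l ∈ Lam) (z : ℂ) : wp (z + l) = wp z :=
  L0.weierstrassP_add_coe z ⟨l, (mem_L0 l).2 hl⟩

theorem add_mem_Lam {l : ℂ} (hl : l ∈ Lam) (z : ℂ) : z + l ∈ Lam ↔ z ∈ Lam :=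
  Lam.add_mem_cancel_right hl

theorem zt_lat {l : ℂ} (hl : l ∈ Lam) : ∃ c : ℂ, ∀ z ∉ Lam, zt (z + l) = zt z + c := by
  obtain ⟨m, n, rfl⟩ := hl
  obtain ⟨η, _, h1, h2⟩ := exists_eta
  refine ⟨m * η - n * I * η, fun z hz => ?_⟩
  rw [exists_kit_add h1 h2 m n z hz]
  ring

/-- the function that vanishes by the addition theorem -/
noncomputable def af (a z : ℂ) : ℂ :=
  (zt (z + a) - zt z - zt a) ^ 2 - wp (z + a) - wp z - wp a

theorem af_symm (a z : ℂ) : af a (-a - z) = af a z := by
  unfold af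
  have e1 : -a - z + a = -z := by ring
  have e2 : -a - z = -(z + a) := by ring
  rw [e1, e2, zt_neg, zt_neg, wp_neg, wp_neg]
  ring

theorem af_per (a : ℂ) {l : ℂ} (hl : l ∈ Lam) (z : ℂ) (hz : z ∉ Lam) (hza : z + a ∉ Lam) :
    af a (z + l) = af a z := by
  obtain ⟨c, hc⟩ := zt_lat hl
  unfold af
  have e1 : z + l + a = (z + a) + l := by ring
  rw [e1, hc _ hz, hc _ hza, wp_add hl, wp_add hl]
  ring

theorem B0 : deriv (zE L0 0) 0 = 0 := by
  have h := deriv_zE L0 0 (show (0 : ℂ) ∈ ((L0.lattice : Set ℂ) \ {0})ᶜ by simp)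
  rw [h]
  simp

theorem B_an : AnalyticAt ℂ (zE L0 0) 0 := by
  apply (diff_zE L0 0).analyticAt
  exact L0.isOpen_compl_lattice_sdiff.mem_nhds (by simp)

theorem zt_B (z : ℂ) : zt z = zE L0 0 z + 1 / z := by
  have hs1 : Summable (fun l : L0.lattice => if l.1 = 0 then 0 else (1 / (z - (l:ℂ)) + 1 / (l:ℂ) + z / (l:ℂ) ^ 2)) :=
    (hs_zE L0 0).hasSum.summable
  have hs2 : Summable (fun l : L0.lattice => if l = 0 then (1 / z : ℂ) else 0) :=
    (hasSum_ite_eq (0 : L0.lattice) (1 / z : ℂ)).summable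
  have e2 : (1 / z : ℂ) = ∑' l : L0.lattice, if l = 0 then (1 / z : ℂ) else 0 :=
    (hasSum_ite_eq (0 : L0.lattice) (1 / z : ℂ)).tsum_eq.symm
  rw [e2]
  unfold zE zt
  rw [← hs1.tsum_add hs2]
  congr with l
  by_cases h : l = 0
  · subst h
    simp
  · have h' : (l : ℂ) ≠ 0 := by simpa using h
    simp [h]

theorem Lam_near (x : ℂ) : ∀ᶠ z in 𝓝[≠] x, z ∉ Lam := by
  filter_upwards [mem_nhdsWithin_of_mem_nhds (L0.compl_lattice_sdiff_singleton_mem_nhds x),
    self_mem_nhdsWithin] with w hw hwz h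
  exact hw ⟨(mem_L0 w).2 h, hwz⟩

theorem zt_zero : zt 0 = 0 := by
  have h := zt_neg 0
  rw [neg_zero] at h
  exact self_eq_neg.1 h

theorem B_zero : zE L0 0 0 = 0 := by
  have h := zt_B 0
  rw [zt_zero] at h
  simpa using h.symm

theorem wp_B : ∀ᶠ z in 𝓝[≠] (0 : ℂ), wp z = 1 / z ^ 2 - deriv (zE L0 0) z := by
  have h1 : ∀ᶠ z in 𝓝[≠] (0 : ℂ), AnalyticAt ℂ (zE L0 0) z :=
    mem_nhdsWithin_of_mem_nhds B_an.eventually_analyticAt
  filter_upwards [h1, Lam_near 0, self_mem_nhdsWithin] with z ha hz hz0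
  have hz0' : z ≠ 0 := hz0
  have d1 := ha.differentiableAt.hasDerivAt
  have d2 : HasDerivAt (fun z : ℂ => z⁻¹) (-(z ^ 2)⁻¹) z := hasDerivAt_inv hz0'
  have d3 := d1.add d2
  have e : zt = fun w => zE L0 0 w + w⁻¹ := by
    funext w
    rw [zt_B]; simp
  have d4 := zt_deriv hz
  rw [e] at d4
  have := d4.unique d3
  have h5 : wp z = -(-L0.weierstrassP z) := by simp
  rw [h5, this]
  field_simp
  ring

theorem af_zero (a : ℂ) (ha : a ∉ Lam) : Tendsto (af a) (𝓝[≠] 0) (𝓝 0) := by
  set g : ℂ → ℂ := fun z => zt (z + a) - zt a - zE L0 0 z with hg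
  have hd : HasDerivAt g (-wp a) 0 := by
    have d1 : HasDerivAt (fun z => zt (z + a)) (- wp (0 + a)) 0 :=
      HasDerivAt.comp_add_const 0 a (by simpa using zt_deriv ha)
    have d2 := B_an.differentiableAt.hasDerivAt
    rw [B0] at d2
    have := (d1.sub_const (zt a)).sub d2
    rw [zero_add, sub_zero] at this
    exact this
  have hg0 : g 0 = 0 := by simp [hg, B_zero]
  have h1 : Tendsto g (𝓝[≠] 0) (𝓝 0) := by
    have := hd.continuousAt.tendsto
    rw [hg0] at this
    exact this.mono_left nhdsWithin_le_nhds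
  have h2 : Tendsto (fun z => g z / z) (𝓝[≠] 0) (𝓝 (-wp a)) := by
    have h := hd.tendsto_slope_zero
    refine h.congr' ?_
    filter_upwards [self_mem_nhdsWithin] with z hz
    rw [zero_add, hg0, sub_zero, smul_eq_mul, div_eq_inv_mul]
  have h3 : Tendsto (fun z => wp (z + a)) (𝓝[≠] 0) (𝓝 (wp a)) := by
    have ha' : a ∉ L0.lattice := fun h => ha ((mem_L0 a).1 h)
    have hc : ContinuousAt wp a := (L0.analyticOnNhd_weierstrassP a ha').continuousAt
    have : Tendsto (fun z : ℂ => z + a) (𝓝[≠] 0) (𝓝 a) := by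
      have h : Continuous (fun z : ℂ => z + a) := by fun_prop
      have := h.tendsto 0
      rw [zero_add] at this
      exact this.mono_left nhdsWithin_le_nhds
    exact hc.tendsto.comp this
  have h4 : Tendsto (fun z => deriv (zE L0 0) z) (𝓝[≠] 0) (𝓝 0) := by
    have := B_an.deriv.continuousAt.tendsto
    rw [B0] at this
    exact this.mono_left nhdsWithin_le_nhds
  have h5 : Tendsto (fun z => g z ^ 2 - 2 * (g z / z) - wp (z + a) + deriv (zE L0 0) z - wp a)
      (𝓝[≠] 0) (𝓝 (0 ^ 2 - 2 * (-wp a) - wp a + 0 - wp a)) :=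
    ((((h1.pow 2).sub (h2.const_mul 2)).sub h3).add h4).sub_const _
  have e : (0 : ℂ) ^ 2 - 2 * (-wp a) - wp a + 0 - wp a = 0 := by ring
  rw [e] at h5
  refine h5.congr' ?_
  filter_upwards [wp_B, self_mem_nhdsWithin] with z hz hz0
  have hz0' : z ≠ 0 := hz0
  simp only [af, hg]
  rw [hz, zt_B z]
  field_simp
  ring

theorem af_neg_a (a : ℂ) (ha : a ∉ Lam) : Tendsto (af a) (𝓝[≠] (-a)) (𝓝 0) := by
  have h : Tendsto (fun z => -a - z) (𝓝[≠] (-a)) (𝓝[≠] 0) := by
    refine tendsto_nhdsWithin_of_tendsto_nhds_of_eventually_within _ ?_ ?_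
    · have hc : Continuous (fun z : ℂ => -a - z) := by fun_prop
      have := hc.tendsto (-a)
      rw [sub_self] at this
      exact this.mono_left nhdsWithin_le_nhds
    · filter_upwards [self_mem_nhdsWithin] with z hz h
      exact hz (sub_eq_zero.1 h).symm
  have := (af_zero a ha).comp h
  refine this.congr fun z => ?_
  exact af_symm a z

theorem af_eq_zero (a : ℂ) (ha : a ∉ Lam) (z : ℂ) (hz : z ∉ Lam) (hza : z + a ∉ Lam) :
    af a z = 0 := by
  classical
  set F : ℂ → ℂ := fun z => if z ∈ Lam ∨ z + a ∈ Lam then 0 else af a z with hF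
  have hFper : ∀ z l, l ∈ Lam → F (z + l) = F z := by
    intro z l hl
    have h1 := add_mem_Lam hl z
    have h2 : z + l + a ∈ Lam ↔ z + a ∈ Lam := by
      rw [show z + l + a = (z + a) + l by ring]; exact add_mem_Lam hl _
    simp only [hF, h1, h2]
    split_ifs with h
    · rfl
    · push Not at h
      exact af_per a hl z h.1 h.2
  have near1 : ∀ x : ℂ, ∀ᶠ z in 𝓝[≠] x, z ∉ Lam ∧ z + a ∉ Lam := by
    intro x
    have h1 := Lam_near x
    have h2 := Lam_near (x + a)
    have ht : Tendsto (fun z => z + a) (𝓝[≠] x) (𝓝[≠] (x + a)) := by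
      refine tendsto_nhdsWithin_of_tendsto_nhds_of_eventually_within _ ?_ ?_
      · exact ((continuous_id.add continuous_const).tendsto x).mono_left nhdsWithin_le_nhds
      · filter_upwards [self_mem_nhdsWithin] with z hz h
        exact hz (by simpa using h)
    exact h1.and (ht.eventually h2)
  have diffOff : ∀ z, z ∉ Lam → z + a ∉ Lam → DifferentiableAt ℂ F z := by
    intro z hz hza
    have hd : DifferentiableAt ℂ (af a) z := by
      have hz' : z ∉ L0.lattice := fun h => hz ((mem_L0 _).1 h)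
      have hza' : z + a ∉ L0.lattice := fun h => hza ((mem_L0 _).1 h)
      have d1 : DifferentiableAt ℂ zt z := (zt_deriv hz).differentiableAt
      have d2 : DifferentiableAt ℂ (fun z => zt (z + a)) z :=
        (HasDerivAt.comp_add_const z a (zt_deriv hza)).differentiableAt
      have d3 : DifferentiableAt ℂ wp z := (L0.analyticOnNhd_weierstrassP z hz').differentiableAt
      have d4 : DifferentiableAt ℂ (fun z => wp (z + a)) z :=
        (HasDerivAt.comp_add_const z a
          (L0.analyticOnNhd_weierstrassP _ hza').differentiableAt.hasDerivAt).differentiableAt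
      unfold af
      exact (((((d2.sub d1).sub_const _).pow 2).sub d4).sub d3).sub_const _
    apply hd.congr_of_eventuallyEq
    have hc : IsOpen ((Lam : Set ℂ)ᶜ) := zeta_quasi_open
    have o1 : ∀ᶠ w in 𝓝 z, w ∉ Lam := hc.mem_nhds hz
    have o2 : ∀ᶠ w in 𝓝 z, w + a ∉ Lam :=
      (hc.preimage (f := fun w : ℂ => w + a) (by fun_prop)).mem_nhds hza
    filter_upwards [o1, o2] with w h1 h2
    simp [hF, h1, h2]
  have cont0 : ContinuousAt F 0 := by
    rw [continuousAt_iff_punctured_nhds]
    have h0 : F 0 = 0 := by simp [hF, Lam.zero_mem]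
    rw [h0]
    refine (af_zero a ha).congr' ?_
    filter_upwards [near1 0] with w hw
    simp [hF, hw.1, hw.2]
  have conta : ContinuousAt F (-a) := by
    rw [continuousAt_iff_punctured_nhds]
    have h0 : F (-a) = 0 := by simp [hF, Lam.zero_mem]
    rw [h0]
    refine (af_neg_a a ha).congr' ?_
    filter_upwards [near1 (-a)] with w hw
    simp [hF, hw.1, hw.2]
  have contL : ∀ x l, l ∈ Lam → ContinuousAt F x → ContinuousAt F (x + l) := by
    intro x l hl hx
    have e : F = fun z => F (z + -l) := by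
      funext z
      exact (hFper z (-l) (neg_mem hl)).symm
    rw [e]
    have : ContinuousAt F ((fun z : ℂ => z + -l) (x + l)) := by
      simpa using hx
    exact ContinuousAt.comp (f := fun z : ℂ => z + -l) this (by fun_prop)
  have hdiff : Differentiable ℂ F := by
    intro z
    by_cases h : z ∈ Lam ∨ z + a ∈ Lam
    · have hc : ContinuousAt F z := by
        rcases h with h | h
        · have := contL 0 z h cont0
          rwa [zero_add] at this
        · have := contL (-a) (z + a) h conta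
          have e : -a + (z + a) = z := by ring
          rwa [e] at this
      refine (Complex.analyticAt_of_differentiable_on_punctured_nhds_of_continuousAt ?_
        hc).differentiableAt
      filter_upwards [near1 z] with w hw
      exact diffOff w hw.1 hw.2
    · push Not at h
      exact diffOff z h.1 h.2
  have hconst := hdiff.apply_eq_apply_of_bounded (IsZLattice.isCompact_range_of_periodic L0.lattice _
    hdiff.continuous (fun z w hw => hFper z w ((mem_L0 w).1 hw))).isBounded z 0
  have h0 : F 0 = 0 := by simp [hF, Lam.zero_mem]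
  have h1 : F z = af a z := by simp [hF, hz, hza]
  rw [← h1, hconst, h0]

/-- addition theorem for the zeta function -/
theorem zt_add (a : ℂ) (ha : a ∉ Lam) (z : ℂ) (hz : z ∉ Lam) (hza : z + a ∉ Lam) :
    (zt (z + a) - zt z - zt a) ^ 2 = wp (z + a) + wp z + wp a := by
  have := af_eq_zero a ha z hz hza
  unfold af at this
  linear_combination this

end H171FV
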