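import Mathlib
import Pool.Agent.H171R3.FV.Add

set_option autoImplicit false

open Complex Filter Topology Set Wg

namespace H171FV

theorem Lam_near2 (a x : ℂ) : ∀ᶠ z in 𝓝[≠] x, z ∉ Lam ∧ z + a ∉ Lam := by
  have h1 := Lam_near x
  have h2 := Lam_near (x + a)
  have ht : Tendsto (fun z => z + a) (𝓝[≠] x) (𝓝[≠] (x + a)) := by
    refine tendsto_nhdsWithin_of_tendsto_nhds_of_eventually_within _ ?_ ?_
    · exact ((continuous_id.add continuous_const).tendsto x).mono_left nhdsWithin_le_nhds
    · filter_upwards [self_mem_nhdsWithin] with z hz h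
      exact hz (by simpa using h)
  exact h1.and (ht.eventually h2)

theorem wp_an {z : ℂ} (hz : z ∉ Lam) : AnalyticAt ℂ wp z :=
  L0.analyticOnNhd_weierstrassP z (fun h => hz ((mem_L0 _).1 h))

/-- quasi-periodicity of the sigma function -/
theorem sg_quasi {l c : ℂ} (hl : l ∈ Lam) (hc : ∀ z ∉ Lam, zt (z + l) = zt z + c) :
    ∃ C : ℂ, C ≠ 0 ∧ ∀ z, sg (z + l) = C * exp (c * z) * sg z := by
  have A : ∀ z ∉ Lam, HasDerivAt (fun z => sg (z + l) * exp (-(c * z)) / sg z) 0 z := by
    intro z hz
    have hzl : z + l ∉ Lam := fun h => hz ((add_mem_Lam hl z).1 h)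
    have d1 : HasDerivAt (fun z => sg (z + l)) (zt (z + l) * sg (z + l)) z := by
      have := (sg_diff (z + l)).hasDerivAt
      rw [sg_deriv hzl] at this
      exact HasDerivAt.comp_add_const z l this
    have d2 : HasDerivAt (fun z => exp (-(c * z))) (exp (-(c * z)) * (-(c * 1))) z :=
      ((hasDerivAt_id z).const_mul c).neg.cexp
    have d3 : HasDerivAt sg (zt z * sg z) z := by
      have := (sg_diff z).hasDerivAt
      rwa [sg_deriv hz] at this
    have := (d1.mul d2).div d3 (sg_ne hz)
    refine this.congr_deriv ?_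
    have hs := sg_ne hz
    simp only [Pi.mul_apply]
    rw [hc z hz]
    field_simp
    ring
  obtain ⟨C, hC⟩ := zeta_quasi_open.exists_is_const_of_deriv_eq_zero zeta_quasi_preconn
    (fun z hz => (A z hz).differentiableAt.differentiableWithinAt) (fun z hz => (A z hz).deriv)
  have h1 : ∀ z ∉ Lam, sg (z + l) = C * exp (c * z) * sg z := by
    intro z hz
    have := hC z hz
    rw [div_eq_iff (sg_ne hz)] at this
    have e : exp (-(c * z)) * exp (c * z) = 1 := by rw [← exp_add]; simp
    calc sg (z + l) = sg (z + l) * (exp (-(c * z)) * exp (c * z)) := by rw [e, mul_one]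
      _ = (sg (z + l) * exp (-(c * z))) * exp (c * z) := by ring
      _ = _ := by rw [this]; ring
  refine ⟨C, ?_, ?_⟩
  · intro h0
    have h2 := h1 ((1 + I) / 2) zeta_quasi_half
    rw [h0] at h2
    have h3 : (1 + I) / 2 + l ∉ Lam := fun h => zeta_quasi_half ((add_mem_Lam hl _).1 h)
    exact sg_ne h3 (by simpa using h2)
  · intro z
    have c1 : Tendsto (fun z => sg (z + l)) (𝓝[≠] z) (𝓝 (sg (z + l))) := by
      have : Continuous (fun z => sg (z + l)) := sg_diff.continuous.comp (by fun_prop)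
      exact (this.tendsto z).mono_left nhdsWithin_le_nhds
    have c2 : Tendsto (fun z => C * exp (c * z) * sg z) (𝓝[≠] z) (𝓝 (C * exp (c * z) * sg z)) := by
      have : Continuous (fun z => C * exp (c * z) * sg z) :=
        (by fun_prop : Continuous (fun z => C * exp (c * z))).mul sg_diff.continuous
      exact (this.tendsto z).mono_left nhdsWithin_le_nhds
    refine tendsto_nhds_unique (c1.congr' ?_) c2
    filter_upwards [Lam_near z] with w hw
    exact h1 w hw

/-- the Bloch solution of the Lame equation -/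
noncomputable def U (a z : ℂ) : ℂ := exp (-(zt a * z)) * sg (z + a) / sg z

theorem U_an (a : ℂ) {z : ℂ} (hz : z ∉ Lam) : AnalyticAt ℂ (U a) z := by
  have h1 : AnalyticAt ℂ sg z := sg_diff.analyticAt z
  have h2 : AnalyticAt ℂ (fun z => sg (z + a)) z := by
    have : Differentiable ℂ (fun z => sg (z + a)) := sg_diff.comp (by fun_prop)
    exact this.analyticAt z
  have h3 : AnalyticAt ℂ (fun z => exp (-(zt a * z))) z := by
    have : Differentiable ℂ (fun z => exp (-(zt a * z))) := by fun_prop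
    exact this.analyticAt z
  exact (h3.mul h2).div h1 (sg_ne hz)

theorem U_d1 (a : ℂ) {z : ℂ} (hz : z ∉ Lam) (hza : z + a ∉ Lam) :
    HasDerivAt (U a) (U a z * (zt (z + a) - zt z - zt a)) z := by
  have d1 : HasDerivAt (fun z => sg (z + a)) (zt (z + a) * sg (z + a)) z := by
    have := (sg_diff (z + a)).hasDerivAt
    rw [sg_deriv hza] at this
    exact HasDerivAt.comp_add_const z a this
  have d2 : HasDerivAt (fun z => exp (-(zt a * z))) (exp (-(zt a * z)) * (-(zt a * 1))) z :=
    ((hasDerivAt_id z).const_mul (zt a)).neg.cexp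
  have d3 : HasDerivAt sg (zt z * sg z) z := by
    have := (sg_diff z).hasDerivAt
    rwa [sg_deriv hz] at this
  have := (d2.mul d1).div d3 (sg_ne hz)
  refine this.congr_deriv ?_
  have hs := sg_ne hz
  unfold U
  simp only [Pi.mul_apply]
  field_simp
  ring

theorem U_d2 {a : ℂ} (ha : a ∉ Lam) {z : ℂ} (hz : z ∉ Lam) (hza : z + a ∉ Lam) :
    HasDerivAt (deriv (U a)) ((2 * wp z + wp a) * U a z) z := by
  have o1 : ∀ᶠ w in 𝓝 z, w ∉ Lam := zeta_quasi_open.mem_nhds hz
  have o2 : ∀ᶠ w in 𝓝 z, w + a ∉ Lam :=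
    (zeta_quasi_open.preimage (f := fun w : ℂ => w + a) (by fun_prop)).mem_nhds hza
  have e : deriv (U a) =ᶠ[𝓝 z] fun w => U a w * (zt (w + a) - zt w - zt a) := by
    filter_upwards [o1, o2] with w h1 h2
    exact (U_d1 a h1 h2).deriv
  have d1 : HasDerivAt (fun z => zt (z + a)) (- wp (z + a)) z :=
    HasDerivAt.comp_add_const z a (zt_deriv hza)
  have d := (U_d1 a hz hza).mul ((d1.sub (zt_deriv hz)).sub_const (zt a))
  refine (d.congr_of_eventuallyEq e).congr_deriv ?_
  simp only [Pi.sub_apply]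
  have h := zt_add a ha z hz hza
  have : U a z * (zt (z + a) - zt z - zt a) * (zt (z + a) - zt z - zt a)
      + U a z * (-wp (z + a) - -L0.weierstrassP z)
      = U a z * ((zt (z + a) - zt z - zt a) ^ 2 - wp (z + a) + wp z) := by ring
  rw [this, h]
  ring

/-- the Lame equation -/
theorem U_lame {a : ℂ} (ha : a ∉ Lam) {z : ℂ} (hz : z ∉ Lam) :
    deriv (deriv (U a)) z = (2 * wp z + wp a) * U a z := by
  have c1 : Tendsto (deriv (deriv (U a))) (𝓝[≠] z) (𝓝 (deriv (deriv (U a)) z)) :=
    ((U_an a hz).deriv.deriv.continuousAt.tendsto).mono_left nhdsWithin_le_nhds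
  have c2 : Tendsto (fun z => (2 * wp z + wp a) * U a z) (𝓝[≠] z)
      (𝓝 ((2 * wp z + wp a) * U a z)) := by
    have h1 : ContinuousAt wp z := (wp_an hz).continuousAt
    have h2 : ContinuousAt (U a) z := (U_an a hz).continuousAt
    have h3 : ContinuousAt (fun z => (2 * wp z + wp a) * U a z) z :=
      ((h1.const_mul 2).add_const (wp a)).mul h2
    exact h3.tendsto.mono_left nhdsWithin_le_nhds
  refine tendsto_nhds_unique (c1.congr' ?_) c2
  filter_upwards [Lam_near2 a z] with w hw
  exact (U_d2 ha hw.1 hw.2).deriv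

/-- multipliers of the Bloch solution -/
theorem U_mult {l c : ℂ} (hl : l ∈ Lam) (hc : ∀ z ∉ Lam, zt (z + l) = zt z + c) (a z : ℂ) :
    U a (z + l) = exp (c * a - l * zt a) * U a z := by
  obtain ⟨C, hC0, hC⟩ := sg_quasi hl hc
  unfold U
  rw [show z + l + a = (z + a) + l by ring, hC, hC]
  have e1 : exp (-(zt a * (z + l))) * (C * exp (c * (z + a)) * sg (z + a)) =
      (C * exp (c * z)) * (exp (c * a - l * zt a) * (exp (-(zt a * z)) * sg (z + a))) := by
    have : exp (-(zt a * (z + l))) * exp (c * (z + a)) =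
        exp (c * z) * (exp (c * a - l * zt a) * exp (-(zt a * z))) := by
      rw [← exp_add, ← exp_add, ← exp_add]
      congr 1
      ring
    calc _ = C * (exp (-(zt a * (z + l))) * exp (c * (z + a))) * sg (z + a) := by ring
      _ = _ := by rw [this]; ring
  rw [e1, mul_div_mul_left _ _ (mul_ne_zero hC0 (exp_ne_zero _)), mul_div_assoc]

noncomputable def eta : ℂ := Classical.choose exists_eta

theorem eta_ne : eta ≠ 0 := (Classical.choose_spec exists_eta).1

theorem zt_one {z : ℂ} (hz : z ∉ Lam) : zt (z + 1) = zt z + eta :=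
  (Classical.choose_spec exists_eta).2.1 z hz

theorem zt_addI {z : ℂ} (hz : z ∉ Lam) : zt (z + I) = zt z - I * eta :=
  (Classical.choose_spec exists_eta).2.2 z hz

theorem one_mem : (1 : ℂ) ∈ Lam := ⟨1, 0, by simp⟩

theorem I_mem : I ∈ Lam := ⟨0, 1, by simp⟩

/-- the Floquet multiplier -/
noncomputable def mm (a : ℂ) : ℂ := exp (eta * a - zt a)

theorem mm_ne (a : ℂ) : mm a ≠ 0 := exp_ne_zero _

theorem mm_neg (a : ℂ) : mm (-a) = (mm a)⁻¹ := by
  unfold mm
  rw [zt_neg, ← exp_neg]
  congr 1
  ring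

theorem U_one (a z : ℂ) : U a (z + 1) = mm a * U a z := by
  have := U_mult one_mem (fun z hz => zt_one hz) a z
  rw [this]
  unfold mm
  rw [one_mul]

theorem exp_two_eta : exp (2 * I * eta) = 1 := by
  obtain ⟨C, hC0, hC⟩ := sg_quasi I_mem (c := -(I * eta)) (fun z hz => by rw [zt_addI hz]; ring)
  set a : ℂ := (1 + I) / 2 with ha
  have haL : a ∉ Lam := zeta_quasi_half
  have haI : a + I ∉ Lam := fun h => haL ((add_mem_Lam I_mem _).1 h)
  have e1 : ∀ z, U (a + I) z = C * exp (-(I * eta) * a) * U a z := by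
    intro z
    unfold U
    rw [zt_addI haL, show z + (a + I) = (z + a) + I by ring, hC]
    have : exp (-((zt a - I * eta) * z)) * exp (-(I * eta) * (z + a)) =
        exp (-(I * eta) * a) * exp (-(zt a * z)) := by
      rw [← exp_add, ← exp_add]
      congr 1
      ring
    calc _ = C * (exp (-((zt a - I * eta) * z)) * exp (-(I * eta) * (z + a))) * sg (z + a) / sg z := by
          ring
      _ = _ := by rw [this]; ring
  obtain ⟨z, hz⟩ := (Lam_near2 a 0).exists
  have hU : U a z ≠ 0 := div_ne_zero (mul_ne_zero (exp_ne_zero _) (sg_ne hz.2)) (sg_ne hz.1)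
  have h1 := U_one (a + I) z
  have h2 := U_one a z
  rw [e1, e1, h2] at h1
  have h3 : C * exp (-(I * eta) * a) * U a z ≠ 0 :=
    mul_ne_zero (mul_ne_zero hC0 (exp_ne_zero _)) hU
  have h4 : mm a = mm (a + I) := by
    apply mul_right_cancel₀ h3
    linear_combination h1
  unfold mm at h4
  rw [zt_addI haL] at h4
  have h5 : exp (eta * (a + I) - (zt a - I * eta)) = exp (eta * a - zt a) * exp (2 * I * eta) := by
    rw [← exp_add]
    congr 1
    ring
  rw [h5] at h4
  exact (mul_right_eq_self₀.1 h4.symm).resolve_right (exp_ne_zero _)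

theorem mm_one {a : ℂ} (ha : a ∉ Lam) : mm (a + 1) = mm a := by
  unfold mm
  rw [zt_one ha]
  congr 1
  ring

theorem mm_I {a : ℂ} (ha : a ∉ Lam) : mm (a + I) = mm a := by
  unfold mm
  rw [zt_addI ha]
  have h5 : exp (eta * (a + I) - (zt a - I * eta)) = exp (eta * a - zt a) * exp (2 * I * eta) := by
    rw [← exp_add]
    congr 1
    ring
  rw [h5, exp_two_eta, mul_one]

end H171FV
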