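import Mathlib
import Pool.Agent.H171R3.FV.Lame

set_option autoImplicit false

open Complex Filter Topology Set Wg

namespace H171FV

theorem half_notMem (x : ℝ) : (x : ℂ) + I / 2 ∉ Lam := by
  rintro ⟨m, n, h⟩
  have := congrArg Complex.im h
  simp at this
  have h2 : (1 : ℝ) = 2 * n := by linarith
  have h3 : (1 : ℤ) = 2 * n := by exact_mod_cast h2
  omega

theorem conj_mem {l : ℂ} (hl : l ∈ Lam) : (starRingEnd ℂ) l ∈ Lam := by
  obtain ⟨m, n, rfl⟩ := hl
  refine ⟨m, -n, ?_⟩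
  simp

theorem wp_conj (z : ℂ) : wp ((starRingEnd ℂ) z) = (starRingEnd ℂ) (wp z) := by
  let e : L0.lattice ≃ L0.lattice :=
    { toFun := fun l => ⟨(starRingEnd ℂ) l.1, (mem_L0 _).2 (conj_mem ((mem_L0 _).1 l.2))⟩
      invFun := fun l => ⟨(starRingEnd ℂ) l.1, (mem_L0 _).2 (conj_mem ((mem_L0 _).1 l.2))⟩
      left_inv := fun l => by
        apply Subtype.ext
        show (starRingEnd ℂ) ((starRingEnd ℂ) l.1) = l.1
        simp
      right_inv := fun l => by
        apply Subtype.ext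
        show (starRingEnd ℂ) ((starRingEnd ℂ) l.1) = l.1
        simp }
  unfold wp PeriodPair.weierstrassP
  rw [← e.tsum_eq, Complex.conj_tsum]
  congr with l
  show 1 / ((starRingEnd ℂ) z - (starRingEnd ℂ) l.1) ^ 2 - 1 / ((starRingEnd ℂ) l.1) ^ 2 = _
  simp

/-- the one-dimensional potential `2 ℘(x + i/2)` -/
noncomputable def vv (x : ℝ) : ℝ := (2 * wp (x + I / 2)).re

theorem vv_eq (x : ℝ) : (vv x : ℂ) = 2 * wp (x + I / 2) := by
  unfold vv
  have h : (starRingEnd ℂ) (2 * wp ((x : ℂ) + I / 2)) = 2 * wp ((x : ℂ) + I / 2) := by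
    have c2 : (starRingEnd ℂ) 2 = 2 := map_ofNat _ 2
    rw [map_mul, ← wp_conj, c2]
    have e : (starRingEnd ℂ) ((x : ℂ) + I / 2) = ((x : ℂ) - I / 2) := by
      simp [c2]; ring
    have e2 : (x : ℂ) + I / 2 = ((x : ℂ) - I / 2) + I := by ring
    rw [e, e2, wp_add I_mem]
  exact Complex.conj_eq_iff_re.1 h

theorem vv_per (x : ℝ) : vv (x + 1) = vv x := by
  unfold vv
  have e : ((x + 1 : ℝ) : ℂ) + I / 2 = ((x : ℂ) + I / 2) + 1 := by push_cast; ring
  rw [e, wp_add one_mem]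

theorem shift_an (x : ℝ) : AnalyticAt ℝ (fun y : ℝ => (y : ℂ) + I / 2) x :=
  (Complex.ofRealCLM.analyticAt x).add analyticAt_const

theorem vv_an (x : ℝ) : AnalyticAt ℝ vv x := by
  have h1 : AnalyticAt ℝ wp ((x : ℂ) + I / 2) := (wp_an (half_notMem x)).restrictScalars
  have h2 : AnalyticAt ℝ (fun y : ℝ => wp ((y : ℂ) + I / 2)) x :=
    AnalyticAt.comp (g := wp) (f := fun y : ℝ => (y : ℂ) + I / 2) h1 (shift_an x)
  have h3 : AnalyticAt ℝ (fun y : ℝ => 2 * wp ((y : ℂ) + I / 2)) x := analyticAt_const.mul h2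
  exact (Complex.reCLM.analyticAt _).comp h3

theorem vv_cont : Continuous vv := continuous_iff_continuousAt.2 fun x => (vv_an x).continuousAt

/-- `f'' = q f` -/
def Sol (q f g : ℝ → ℂ) : Prop :=
  (∀ x, HasDerivAt f (g x) x) ∧ ∀ x, HasDerivAt g (q x * f x) x

theorem Sol.lin {q f g f' g' : ℝ → ℂ} (h : Sol q f g) (h' : Sol q f' g') (c d : ℂ) :
    Sol q (fun x => c * f x - d * f' x) (fun x => c * g x - d * g' x) := by
  refine ⟨fun x => ((h.1 x).const_mul c).sub ((h'.1 x).const_mul d), fun x => ?_⟩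
  refine (((h.2 x).const_mul c).sub ((h'.2 x).const_mul d)).congr_deriv ?_
  ring

theorem Sol.uniq {q f g : ℝ → ℂ} {C : ℝ} (hC : ∀ x, ‖q x‖ ≤ C) (h : Sol q f g) {x0 : ℝ}
    (h0 : f x0 = 0) (h1 : g x0 = 0) : ∀ x, f x = 0 := by
  have hC0 : 0 ≤ C := (norm_nonneg _).trans (hC 0)
  set K : NNReal := ⟨max 1 C, le_max_of_le_left zero_le_one⟩ with hK
  have hKv : (K : ℝ) = max 1 C := rfl
  have hv : ∀ t : ℝ, LipschitzOnWith K (fun p : ℂ × ℂ => (p.2, q t * p.1)) Set.univ := by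
    intro t
    rw [lipschitzOnWith_univ]
    refine LipschitzWith.of_dist_le_mul fun p p' => ?_
    rw [Prod.dist_eq, hKv]
    have hp0 : 0 ≤ dist p p' := dist_nonneg
    refine max_le ?_ ?_
    · have : dist p.2 p'.2 ≤ dist p p' := le_max_right _ _
      calc dist p.2 p'.2 ≤ dist p p' := this
        _ = 1 * dist p p' := (one_mul _).symm
        _ ≤ max 1 C * dist p p' := by gcongr; exact le_max_left _ _
    · have : dist p.1 p'.1 ≤ dist p p' := le_max_left _ _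
      have e : dist (q t * p.1) (q t * p'.1) = ‖q t‖ * dist p.1 p'.1 := by
        rw [dist_eq_norm, dist_eq_norm, ← mul_sub, norm_mul]
      show dist (q t * p.1) (q t * p'.1) ≤ _
      rw [e]
      calc ‖q t‖ * dist p.1 p'.1 ≤ C * dist p p' := by
            gcongr; exact hC t
        _ ≤ max 1 C * dist p p' := by gcongr; exact le_max_right _ _
  have e := ODE_solution_unique_univ (v := fun t (p : ℂ × ℂ) => (p.2, q t * p.1)) (K := K)
    (s := fun _ => Set.univ) (f := fun t => (f t, g t)) (g := fun _ => (0, 0)) (t₀ := x0) hv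
    (fun t => ⟨(h.1 t).prodMk (h.2 t), trivial⟩)
    (fun t => ⟨by
      show HasDerivAt (fun _ : ℝ => ((0 : ℂ), (0 : ℂ))) ((0 : ℂ), q t * 0) t
      rw [mul_zero]
      exact hasDerivAt_const t ((0 : ℂ), (0 : ℂ)), trivial⟩)
    (by simp [h0, h1])
  intro x
  have := congrFun e x
  exact (Prod.mk.inj this).1

theorem Sol.shift {q f g : ℝ → ℂ} (h : Sol q f g) {z : ℂ} (hz : ∀ x, f (x + 1) = z * f x) (x : ℝ) :
    g (x + 1) = z * g x := by
  have d1 : HasDerivAt (fun x => f (x + 1)) (g (x + 1)) x := HasDerivAt.comp_add_const x 1 (h.1 _)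
  have d2 : HasDerivAt (fun x => f (x + 1)) (z * g x) x := by
    have : (fun x => f (x + 1)) = fun x => z * f x := funext hz
    rw [this]
    exact (h.1 x).const_mul z
  exact d1.unique d2

theorem Sol.wr {q f g f' g' : ℝ → ℂ} (h : Sol q f g) (h' : Sol q f' g') (x : ℝ) :
    f x * g' x - g x * f' x = f 0 * g' 0 - g 0 * f' 0 := by
  have hW : ∀ x, HasDerivAt (fun x => f x * g' x - g x * f' x) 0 x := by
    intro x
    refine (((h.1 x).mul (h'.2 x)).sub ((h.2 x).mul (h'.1 x))).congr_deriv ?_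
    ring
  exact is_const_of_deriv_eq_zero (fun x => (hW x).differentiableAt) (fun x => (hW x).deriv) x 0

theorem Sol.mult0 {q f g f' g' : ℝ → ℂ} {C : ℝ} (hC : ∀ x, ‖q x‖ ≤ C) (h : Sol q f g)
    (h' : Sol q f' g') {z m : ℂ} (hz : ∀ x, f (x + 1) = z * f x) (hm : ∀ x, f' (x + 1) = m * f' x)
    (hf : ∃ x, f x ≠ 0) (hf' : ∃ x, f' x ≠ 0) (hW0 : f 0 * g' 0 - g 0 * f' 0 = 0) : z = m := by
  have k1 : ∀ x, f' 0 * f x - f 0 * f' x = 0 :=
    (h.lin h' (f' 0) (f 0)).uniq hC (x0 := 0) (by ring) (by linear_combination -hW0)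
  have k2 : ∀ x, g' 0 * f x - g 0 * f' x = 0 :=
    (h.lin h' (g' 0) (g 0)).uniq hC (x0 := 0) (by linear_combination hW0) (by ring)
  have k3 : f' 0 ≠ 0 ∨ g' 0 ≠ 0 := by
    by_contra hc
    push Not at hc
    obtain ⟨x, hx⟩ := hf'
    exact hx (h'.uniq hC hc.1 hc.2 x)
  obtain ⟨x, hx⟩ := hf
  obtain ⟨c, d, hcd, hc⟩ : ∃ c d : ℂ, (∀ x, c * f x = d * f' x) ∧ c ≠ 0 := by
    rcases k3 with h3 | h3
    · exact ⟨f' 0, f 0, fun x => by linear_combination k1 x, h3⟩
    · exact ⟨g' 0, g 0, fun x => by linear_combination k2 x, h3⟩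
  have e1 := hcd (x + 1)
  rw [hz, hm] at e1
  have e2 : (z - m) * (c * f x) = 0 := by
    linear_combination e1 - m * hcd x
  rcases mul_eq_zero.1 e2 with e3 | e3
  · exact sub_eq_zero.1 e3
  · exact absurd e3 (mul_ne_zero hc hx)

theorem Sol.mult {q f g f' g' : ℝ → ℂ} {C : ℝ} (hC : ∀ x, ‖q x‖ ≤ C) (h : Sol q f g)
    (h' : Sol q f' g') {z m : ℂ} (hz : ∀ x, f (x + 1) = z * f x) (hm : ∀ x, f' (x + 1) = m * f' x)
    (hf : ∃ x, f x ≠ 0) (hf' : ∃ x, f' x ≠ 0) : z = m ∨ z * m = 1 := by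
  have h1 := h.wr h' (0 + 1)
  simp only [hz, hm, h.shift hz, h'.shift hm] at h1
  by_cases hW0 : f 0 * g' 0 - g 0 * f' 0 = 0
  · left
    exact h.mult0 hC h' hz hm hf hf' hW0
  · right
    have : (z * m - 1) * (f 0 * g' 0 - g 0 * f' 0) = 0 := by linear_combination h1
    rcases mul_eq_zero.1 this with h2 | h2
    · exact sub_eq_zero.1 h2
    · exact absurd h2 hW0

/-- `z` is a Floquet multiplier of `-f'' + v f = μ f` -/
def Mult (μ z : ℂ) : Prop :=
  ∃ f g : ℝ → ℂ, Sol (fun x => (vv x : ℂ) - μ) f g ∧ (∀ x, f (x + 1) = z * f x) ∧ ∃ x, f x ≠ 0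

theorem vv_bdd (μ : ℂ) : ∃ C : ℝ, ∀ x : ℝ, ‖(vv x : ℂ) - μ‖ ≤ C := by
  have hp : Function.Periodic (fun x : ℝ => (vv x : ℂ) - μ) 1 := fun x => by simp [vv_per]
  have hc : Continuous (fun x : ℝ => (vv x : ℂ) - μ) :=
    (Complex.continuous_ofReal.comp vv_cont).sub continuous_const
  obtain ⟨C, hC⟩ := (hp.isBounded_of_continuous one_ne_zero hc).exists_norm_le
  exact ⟨C, fun x => hC _ (Set.mem_range_self x)⟩

/-- the Bloch solution on the real line -/
noncomputable def ph (a : ℂ) (x : ℝ) : ℂ := U a (x + I / 2)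

noncomputable def ph' (a : ℂ) (x : ℝ) : ℂ := deriv (U a) (x + I / 2)

theorem line_deriv {F : ℂ → ℂ} {F' : ℂ} {x : ℝ} (h : HasDerivAt F F' ((x : ℂ) + I / 2)) :
    HasDerivAt (fun y : ℝ => F ((y : ℂ) + I / 2)) F' x := by
  have := HasDerivAt.comp_ofReal (e := fun z => F (z + I / 2)) (z := x)
    (HasDerivAt.comp_add_const (x : ℂ) (I / 2) h)
  exact this

theorem ph_sol {a : ℂ} (ha : a ∉ Lam) :
    Sol (fun x => (vv x : ℂ) - -wp a) (ph a) (ph' a) := by
  refine ⟨fun x => ?_, fun x => ?_⟩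
  · exact line_deriv (U_an a (half_notMem x)).differentiableAt.hasDerivAt
  · have h := (U_an a (half_notMem x)).deriv.differentiableAt.hasDerivAt
    rw [U_lame ha (half_notMem x)] at h
    have := line_deriv h
    refine this.congr_deriv ?_
    show _ = ((vv x : ℂ) - -wp a) * U a ((x : ℂ) + I / 2)
    rw [vv_eq]
    ring

theorem ph_per (a : ℂ) (x : ℝ) : ph a (x + 1) = mm a * ph a x := by
  unfold ph
  rw [← U_one]
  congr 1
  push_cast
  ring

theorem ph_an (a : ℂ) (x : ℝ) : AnalyticAt ℝ (ph a) x := by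
  have h1 : AnalyticAt ℝ (U a) ((x : ℂ) + I / 2) := (U_an a (half_notMem x)).restrictScalars
  exact AnalyticAt.comp (g := U a) (f := fun y : ℝ => (y : ℂ) + I / 2) h1 (shift_an x)

theorem ph_ne (a : ℂ) : ∃ x, ph a x ≠ 0 := by
  have h := Lam_near2 a (I / 2)
  have ht : Tendsto (fun x : ℝ => (x : ℂ) + I / 2) (𝓝[≠] 0) (𝓝[≠] (I / 2)) := by
    refine tendsto_nhdsWithin_of_tendsto_nhds_of_eventually_within _ ?_ ?_
    · have hc : Continuous (fun x : ℝ => (x : ℂ) + I / 2) := by fun_prop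
      have := hc.tendsto 0
      simp only [ofReal_zero, zero_add] at this
      exact this.mono_left nhdsWithin_le_nhds
    · filter_upwards [self_mem_nhdsWithin] with x hx h
      apply hx
      have : (x : ℂ) + I / 2 = I / 2 := h
      simpa using this
  obtain ⟨x, hx⟩ := (ht.eventually h).exists
  exact ⟨x, div_ne_zero (mul_ne_zero (exp_ne_zero _) (sg_ne hx.2)) (sg_ne hx.1)⟩

theorem mult_iff {a : ℂ} (ha : a ∉ Lam) (z : ℂ) :
    Mult (-wp a) z ↔ z = mm a ∨ z = (mm a)⁻¹ := by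
  obtain ⟨C, hC⟩ := vv_bdd (-wp a)
  constructor
  · rintro ⟨f, g, hs, hz, hne⟩
    rcases hs.mult hC (ph_sol ha) hz (ph_per a) hne (ph_ne a) with h | h
    · exact Or.inl h
    · exact Or.inr (eq_inv_of_mul_eq_one_left h)
  · rintro (rfl | rfl)
    · exact ⟨ph a, ph' a, ph_sol ha, ph_per a, ph_ne a⟩
    · have ha' : -a ∉ Lam := fun h => ha (neg_mem_iff.1 h)
      have h := ph_sol ha'
      rw [wp_neg] at h
      rw [← mm_neg]
      exact ⟨ph (-a), ph' (-a), h, ph_per (-a), ph_ne (-a)⟩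

end H171FV
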