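import Mathlib
import Pool.Agent.H171R3.FV.Sep2
import Pool.Agent.H171R3.FV.Defs

set_option autoImplicit false

open Complex Filter Topology Set Wg

namespace H171FV

theorem graph1 {f h : ℂ → ℂ} {a0 : ℂ} (hf : AnalyticAt ℂ f a0) (hh : AnalyticAt ℂ h a0)
    (hf' : deriv f a0 ≠ 0) {N : Set ℂ} (hN : N ∈ 𝓝 a0) :
    ∃ O : Set ℂ, IsOpen O ∧ a0 ∈ O ∧ O ⊆ N ∧ ∃ g : ℂ × ℂ → ℂ, AnalyticAt ℂ g (f a0, h a0) ∧
      ∀ᶠ q in 𝓝 ((f a0, h a0) : ℂ × ℂ), (∃ a ∈ O, (f a, h a) = q) ↔ g q = 0 := by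
  set ψ : ℂ → ℂ := hf.hasStrictDerivAt.localInverse _ _ _ hf' with hψ
  have ψa : AnalyticAt ℂ ψ (f a0) := hf.analyticAt_localInverse hf'
  have ψ0 : ψ (f a0) = a0 := HasStrictFDerivAt.localInverse_apply_image ..
  have hl : ∀ᶠ x in 𝓝 a0, ψ (f x) = x := HasStrictDerivAt.eventually_left_inverse ..
  have hr : ∀ᶠ y in 𝓝 (f a0), f (ψ y) = y := HasStrictDerivAt.eventually_right_inverse ..
  obtain ⟨O, hO1, hO2, hO3⟩ := mem_nhds_iff.1 (Filter.inter_mem hN hl)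
  refine ⟨O, hO2, hO3, fun x hx => (hO1 hx).1, fun q => q.2 - h (ψ q.1), ?_, ?_⟩
  · have h1 : AnalyticAt ℂ (fun q : ℂ × ℂ => ψ q.1) (f a0, h a0) :=
      AnalyticAt.comp (g := ψ) (f := fun q : ℂ × ℂ => q.1) ψa analyticAt_fst
    have h2 : AnalyticAt ℂ (fun q : ℂ × ℂ => h (ψ q.1)) (f a0, h a0) := by
      refine AnalyticAt.comp (g := h) (f := fun q : ℂ × ℂ => ψ q.1) ?_ h1
      show AnalyticAt ℂ h (ψ (f a0))
      rw [ψ0]; exact hh
    exact analyticAt_snd.sub h2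
  · have t1 : Tendsto (fun q : ℂ × ℂ => q.1) (𝓝 (f a0, h a0)) (𝓝 (f a0)) :=
      continuous_fst.tendsto _
    have t2 : ∀ᶠ y in 𝓝 (f a0), ψ y ∈ O := by
      have := ψa.continuousAt.tendsto
      rw [ψ0] at this
      exact this.eventually (hO2.mem_nhds hO3)
    filter_upwards [t1.eventually t2, t1.eventually hr] with q h2 h3
    constructor
    · rintro ⟨a, ha, rfl⟩
      show h a - h (ψ (f a)) = 0
      have : ψ (f a) = a := (hO1 ha).2
      rw [this, sub_self]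
    · intro hq
      refine ⟨ψ q.1, h2, ?_⟩
      apply Prod.ext
      · exact h3
      · exact (sub_eq_zero.1 hq).symm

theorem graph2 {f h : ℂ → ℂ} {a0 : ℂ} (hf : AnalyticAt ℂ f a0) (hh : AnalyticAt ℂ h a0)
    (hd : deriv f a0 ≠ 0 ∨ deriv h a0 ≠ 0) {N : Set ℂ} (hN : N ∈ 𝓝 a0) :
    ∃ O : Set ℂ, IsOpen O ∧ a0 ∈ O ∧ O ⊆ N ∧ ∃ g : ℂ × ℂ → ℂ, AnalyticAt ℂ g (f a0, h a0) ∧
      ∀ᶠ q in 𝓝 ((f a0, h a0) : ℂ × ℂ), (∃ a ∈ O, (f a, h a) = q) ↔ g q = 0 := by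
  rcases hd with hd | hd
  · exact graph1 hf hh hd hN
  · obtain ⟨O, h1, h2, h3, g, h4, h5⟩ := graph1 hh hf hd hN
    refine ⟨O, h1, h2, h3, fun q => g (q.2, q.1), ?_, ?_⟩
    · have hs : AnalyticAt ℂ (fun q : ℂ × ℂ => (q.2, q.1)) (f a0, h a0) :=
        analyticAt_snd.prod analyticAt_fst
      exact AnalyticAt.comp (g := g) (f := fun q : ℂ × ℂ => (q.2, q.1)) h4 hs
    · have ht : Tendsto (fun q : ℂ × ℂ => (q.2, q.1)) (𝓝 (f a0, h a0)) (𝓝 (h a0, f a0)) :=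
        (by fun_prop : Continuous fun q : ℂ × ℂ => (q.2, q.1)).tendsto (f a0, h a0)
      filter_upwards [ht.eventually h5] with q hq
      rw [← hq]
      constructor
      · rintro ⟨a, ha, rfl⟩
        exact ⟨a, ha, rfl⟩
      · rintro ⟨a, ha, e⟩
        refine ⟨a, ha, ?_⟩
        have e1 := congrArg Prod.fst e
        have e2 := congrArg Prod.snd e
        exact Prod.ext e2 e1

/-- near a point, the image of a compact set under an immersion is an analytic set -/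
theorem compact_piece {f h : ℂ → ℂ} {D K : Set ℂ} (hD : IsOpen D) (hK : IsCompact K) (hKD : K ⊆ D)
    (hf : ∀ a ∈ D, AnalyticAt ℂ f a) (hh : ∀ a ∈ D, AnalyticAt ℂ h a)
    (hd : ∀ a ∈ D, deriv f a ≠ 0 ∨ deriv h a ≠ 0) (p : ℂ × ℂ) :
    ∃ O : Set ℂ, K ⊆ O ∧ O ⊆ D ∧ ∃ g : ℂ × ℂ → ℂ, AnalyticAt ℂ g p ∧
      ∀ᶠ q in 𝓝 p, (∃ a ∈ O, (f a, h a) = q) ↔ g q = 0 := by
  refine hK.induction_on (p := fun K => ∃ O : Set ℂ, K ⊆ O ∧ O ⊆ D ∧ ∃ g : ℂ × ℂ → ℂ,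
    AnalyticAt ℂ g p ∧ ∀ᶠ q in 𝓝 p, (∃ a ∈ O, (f a, h a) = q) ↔ g q = 0) ?_ ?_ ?_ ?_
  · refine ⟨∅, Subset.rfl, empty_subset _, fun _ => 1, analyticAt_const, ?_⟩
    refine .of_forall fun q => ?_
    simp
  · rintro s t hst ⟨O, h1, h2⟩
    exact ⟨O, hst.trans h1, h2⟩
  · rintro s t ⟨O, h1, h2, g, h3, h4⟩ ⟨O', h1', h2', g', h3', h4'⟩
    refine ⟨O ∪ O', union_subset_union h1 h1', union_subset h2 h2', fun q => g q * g' q,
      h3.mul h3', ?_⟩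
    filter_upwards [h4, h4'] with q hq hq'
    rw [mul_eq_zero, ← hq, ← hq']
    constructor
    · rintro ⟨a, ha | ha, e⟩
      · exact Or.inl ⟨a, ha, e⟩
      · exact Or.inr ⟨a, ha, e⟩
    · rintro (⟨a, ha, e⟩ | ⟨a, ha, e⟩)
      · exact ⟨a, Or.inl ha, e⟩
      · exact ⟨a, Or.inr ha, e⟩
  · intro a0 ha0
    have haD := hKD ha0
    by_cases hp : (f a0, h a0) = p
    · subst hp
      obtain ⟨O, h1, h2, h3, g, h4, h5⟩ := graph2 (hf a0 haD) (hh a0 haD) (hd a0 haD)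
        (hD.mem_nhds haD)
      exact ⟨O, mem_nhdsWithin_of_mem_nhds (h1.mem_nhds h2), O, Subset.rfl, h3, g, h4, h5⟩
    · have hc : ContinuousAt (fun a => (f a, h a)) a0 :=
        (hf a0 haD).continuousAt.prodMk (hh a0 haD).continuousAt
      obtain ⟨u, v, hu, hv, hu0, hv0, huv⟩ := t2_separation hp
      have h1 : {a | (f a, h a) ∈ u} ∈ 𝓝 a0 := hc (hu.mem_nhds hu0)
      refine ⟨{a | (f a, h a) ∈ u} ∩ D, mem_nhdsWithin_of_mem_nhds
        (Filter.inter_mem h1 (hD.mem_nhds haD)), {a | (f a, h a) ∈ u} ∩ D, Subset.rfl,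
        inter_subset_right, fun _ => 1, analyticAt_const, ?_⟩
      filter_upwards [hv.mem_nhds hv0] with q hq
      constructor
      · rintro ⟨a, ⟨ha, _⟩, rfl⟩
        exact absurd hq (Set.disjoint_left.1 huv ha)
      · intro h
        exact absurd h one_ne_zero

theorem wp_I (a : ℂ) : wp (I * a) = - wp a := wp_I_mul a

theorem I_mul_notMem {a : ℂ} (ha : a ∉ Lam) : I * a ∉ Lam := fun h => ha (mem_L0_I_mul_iff.1 h)

theorem mm_deriv {a : ℂ} (ha : a ∉ Lam) : HasDerivAt mm ((eta + wp a) * mm a) a := by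
  have h1 : HasDerivAt (fun a => eta * a - zt a) (eta * 1 - -L0.weierstrassP a) a :=
    ((hasDerivAt_id a).const_mul eta).sub (zt_deriv ha)
  refine h1.cexp.congr_deriv ?_
  unfold mm
  ring

/-- the second coordinate -/
noncomputable def nn (a : ℂ) : ℂ := mm (I * a)

theorem nn_ne (a : ℂ) : nn a ≠ 0 := mm_ne _

theorem nn_deriv {a : ℂ} (ha : a ∉ Lam) : HasDerivAt nn (I * (eta - wp a) * nn a) a := by
  have h1 := mm_deriv (I_mul_notMem ha)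
  have h2 : HasDerivAt (fun a : ℂ => I * a) (I * 1) a := (hasDerivAt_id a).const_mul I
  have h3 := HasDerivAt.comp a h1 h2
  refine h3.congr_deriv ?_
  rw [wp_I]
  unfold nn
  ring

theorem Lam_open : IsOpen ((Lam : Set ℂ)ᶜ) := zeta_quasi_open

theorem mm_an {a : ℂ} (ha : a ∉ Lam) : AnalyticAt ℂ mm a := by
  have : DifferentiableOn ℂ mm (Lam : Set ℂ)ᶜ := fun b hb =>
    (mm_deriv hb).differentiableAt.differentiableWithinAt
  exact this.analyticAt (Lam_open.mem_nhds ha)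

theorem nn_an {a : ℂ} (ha : a ∉ Lam) : AnalyticAt ℂ nn a := by
  have : DifferentiableOn ℂ nn (Lam : Set ℂ)ᶜ := fun b hb =>
    (nn_deriv hb).differentiableAt.differentiableWithinAt
  exact this.analyticAt (Lam_open.mem_nhds ha)

theorem imm {a : ℂ} (ha : a ∉ Lam) : deriv mm a ≠ 0 ∨ deriv nn a ≠ 0 := by
  rw [(mm_deriv ha).deriv, (nn_deriv ha).deriv]
  by_contra hc
  push Not at hc
  have h1 := (mul_eq_zero.1 hc.1).resolve_right (mm_ne a)
  have h2 := (mul_eq_zero.1 hc.2).resolve_right (nn_ne a)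
  have h3 := (mul_eq_zero.1 h2).resolve_left I_ne_zero
  have h4 : eta = 0 := by linear_combination (h1 + h3) / 2
  exact eta_ne h4

theorem mm_lat {l : ℂ} (hl : l ∈ Lam) {a : ℂ} (ha : a ∉ Lam) : mm (a + l) = mm a := by
  let S : AddSubgroup ℂ :=
    { carrier := {l | l ∈ Lam ∧ ∀ a ∉ Lam, mm (a + l) = mm a}
      add_mem' := by
        rintro l l' ⟨h1, h2⟩ ⟨h3, h4⟩
        refine ⟨Lam.add_mem h1 h3, fun a ha => ?_⟩
        rw [← add_assoc, h4 _ (fun h => ha ((add_mem_Lam h1 a).1 h)), h2 a ha]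
      zero_mem' := ⟨Lam.zero_mem, fun a _ => by rw [add_zero]⟩
      neg_mem' := by
        rintro l ⟨h1, h2⟩
        refine ⟨Lam.neg_mem h1, fun a ha => ?_⟩
        have h3 : a + -l ∉ Lam := fun h => ha ((add_mem_Lam (Lam.neg_mem h1) a).1 h)
        have := h2 (a + -l) h3
        rw [neg_add_cancel_right] at this
        exact this.symm }
  have h1 : (1 : ℂ) ∈ S := ⟨one_mem, fun a ha => mm_one ha⟩
  have h2 : I ∈ S := ⟨I_mem, fun a ha => mm_I ha⟩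
  obtain ⟨m, n, rfl⟩ := hl
  have h3 : (m : ℂ) + n * I ∈ S := by
    have := S.add_mem (S.zsmul_mem h1 m) (S.zsmul_mem h2 n)
    simpa using this
  exact h3.2 a ha

theorem nn_lat {l : ℂ} (hl : l ∈ Lam) {a : ℂ} (ha : a ∉ Lam) : nn (a + l) = nn a := by
  unfold nn
  rw [mul_add]
  exact mm_lat (mem_L0_I_mul hl) (I_mul_notMem ha)

/-- reduction to the fundamental square -/
def Qs : Set ℂ := {a | |a.re| ≤ 1 / 2 ∧ |a.im| ≤ 1 / 2}

theorem Qs_lam {a : ℂ} (ha : a ∈ Qs) (hL : a ∈ Lam) : a = 0 := by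
  obtain ⟨m, n, rfl⟩ := hL
  obtain ⟨h1, h2⟩ := ha
  have e1 : ((m : ℂ) + n * I).re = m := by simp
  have e2 : ((m : ℂ) + n * I).im = n := by simp
  rw [e1] at h1
  rw [e2] at h2
  have hm : m = 0 := by
    by_contra hc
    have : (1 : ℝ) ≤ |(m : ℝ)| := by exact_mod_cast Int.one_le_abs hc
    linarith
  have hn : n = 0 := by
    by_contra hc
    have : (1 : ℝ) ≤ |(n : ℝ)| := by exact_mod_cast Int.one_le_abs hc
    linarith
  simp [hm, hn]

theorem exists_red (a : ℂ) (ha : a ∉ Lam) : ∃ b ∈ Qs, b ∉ Lam ∧ mm b = mm a ∧ nn b = nn a := by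
  set l : ℂ := (-(round a.re) : ℤ) + (-(round a.im) : ℤ) * I with hl
  have hlm : l ∈ Lam := ⟨_, _, rfl⟩
  refine ⟨a + l, ⟨?_, ?_⟩, fun h => ha ((add_mem_Lam hlm a).1 h), mm_lat hlm ha, nn_lat hlm ha⟩
  · have : (a + l).re = a.re - round a.re := by
      rw [hl]; simp; ring
    rw [this]
    exact abs_sub_round _
  · have : (a + l).im = a.im - round a.im := by
      rw [hl]; simp; ring
    rw [this]
    exact abs_sub_round _

theorem Qs_compact : IsCompact Qs := by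
  refine Metric.isCompact_of_isClosed_isBounded ?_ ?_
  · exact (isClosed_le (f := fun a : ℂ => |a.re|) (g := fun _ => (1 / 2 : ℝ))
      Complex.continuous_re.abs continuous_const).inter
      (isClosed_le (f := fun a : ℂ => |a.im|) (g := fun _ => (1 / 2 : ℝ))
      Complex.continuous_im.abs continuous_const)
  · refine (Metric.isBounded_closedBall (x := (0 : ℂ)) (r := 1)).subset fun a ha => ?_
    rw [Metric.mem_closedBall, dist_zero_right]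
    have := Complex.norm_le_abs_re_add_abs_im a
    obtain ⟨h1, h2⟩ := ha
    linarith

theorem nn_ep (a : ℂ) : nn a = exp (ep (I * a) + I * (1 / a)) := by
  unfold nn
  rw [mm_ep]
  congr 1
  rw [one_div, one_div, mul_inv, inv_I]
  ring

theorem ep_small {ε : ℝ} (hε : 0 < ε) : ∃ δ > 0, ∀ a : ℂ, ‖a‖ < δ → ‖ep a‖ ≤ ε := by
  have := ep_an.continuousAt
  rw [Metric.continuousAt_iff] at this
  obtain ⟨δ, h1, h2⟩ := this ε hε
  refine ⟨δ, h1, fun a ha => ?_⟩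
  have := h2 (x := a) (by simpa using ha)
  rw [ep_zero, dist_zero_right] at this
  exact this.le

/-- properness near the puncture -/
theorem proper0 (p : ℂ × ℂ) (h1 : p.1 ≠ 0) (h2 : p.2 ≠ 0) :
    ∃ δ > 0, ∀ᶠ q in 𝓝 p, ∀ a : ℂ, ‖a‖ < δ → a ≠ 0 → (mm a, nn a) ≠ q := by
  obtain ⟨δ, hδ, hep⟩ := ep_small one_pos
  have c1 : ContinuousAt (fun q : ℂ × ℂ => Real.log ‖q.1‖) p := by
    refine ContinuousAt.log continuous_fst.norm.continuousAt ?_
    exact norm_ne_zero_iff.2 h1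
  have c2 : ContinuousAt (fun q : ℂ × ℂ => Real.log ‖q.2‖) p := by
    refine ContinuousAt.log continuous_snd.norm.continuousAt ?_
    exact norm_ne_zero_iff.2 h2
  set M : ℝ := |Real.log ‖p.1‖| + |Real.log ‖p.2‖| + 2 with hM
  have hM0 : 0 < M := by positivity
  have e1 : ∀ᶠ q : ℂ × ℂ in 𝓝 p, |Real.log ‖q.1‖| < |Real.log ‖p.1‖| + 1 :=
    c1.abs.eventually (gt_mem_nhds (by linarith))
  have e2 : ∀ᶠ q : ℂ × ℂ in 𝓝 p, |Real.log ‖q.2‖| < |Real.log ‖p.2‖| + 1 :=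
    c2.abs.eventually (gt_mem_nhds (by linarith))
  refine ⟨min δ (1 / (M + 4)), lt_min hδ (by positivity), ?_⟩
  filter_upwards [e1, e2] with q hq1 hq2 a ha ha0 he
  have ha1 : ‖a‖ < δ := lt_of_lt_of_le ha (min_le_left _ _)
  have ha2 : ‖a‖ < 1 / (M + 4) := lt_of_lt_of_le ha (min_le_right _ _)
  have k1 : ‖ep a‖ ≤ 1 := hep a ha1
  have k2 : ‖ep (I * a)‖ ≤ 1 := hep _ (by simpa using ha1)
  have l1 : Real.log ‖q.1‖ = (ep a).re - (1 / a).re := by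
    rw [← he]
    show Real.log ‖mm a‖ = _
    rw [mm_ep, Complex.norm_exp, Real.log_exp, sub_re]
  have l2 : Real.log ‖q.2‖ = (ep (I * a)).re - (1 / a).im := by
    rw [← he]
    show Real.log ‖nn a‖ = _
    rw [nn_ep, Complex.norm_exp, Real.log_exp, add_re]
    simp [sub_eq_add_neg]
  have b1 := abs_le.1 ((Complex.abs_re_le_norm (ep a)).trans k1)
  have b2 := abs_le.1 ((Complex.abs_re_le_norm (ep (I * a))).trans k2)
  have b3 := abs_lt.1 hq1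
  have b4 := abs_lt.1 hq2
  rw [l1] at b3
  rw [l2] at b4
  have a1 : |(1 / a).re| ≤ |Real.log ‖p.1‖| + 2 := by
    rw [abs_le]; constructor <;> linarith [b1.1, b1.2, b3.1, b3.2]
  have a2 : |(1 / a).im| ≤ |Real.log ‖p.2‖| + 2 := by
    rw [abs_le]; constructor <;> linarith [b2.1, b2.2, b4.1, b4.2]
  have a3 : ‖1 / a‖ ≤ M + 2 := by
    refine (Complex.norm_le_abs_re_add_abs_im _).trans ?_
    rw [hM]; linarith
  have a4 : 0 < ‖a‖ := norm_pos_iff.2 ha0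
  rw [norm_div, norm_one, div_le_iff₀ a4] at a3
  rw [lt_div_iff₀ (by positivity)] at ha2
  nlinarith

theorem IsAnalyticSubset.one {U A : Set (ℂ × ℂ)} (h1 : A ⊆ U)
    (h : ∀ p ∈ U, ∃ f : ℂ × ℂ → ℂ, AnalyticAt ℂ f p ∧ ∀ᶠ q in 𝓝 p, (q ∈ A ↔ f q = 0)) :
    IsAnalyticSubset U A := by
  refine ⟨h1, fun p hp => ?_⟩
  obtain ⟨f, hf, he⟩ := h p hp
  refine ⟨1, fun _ => f, fun _ => hf, ?_⟩
  filter_upwards [he] with q hq
  rw [hq]
  simp

/-- first component -/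
def AA : Set (ℂ × ℂ) := {q | ∃ a, a ∉ Lam ∧ (mm a, nn a) = q}

/-- second component -/
def BB : Set (ℂ × ℂ) := {q | ∃ a, a ∉ Lam ∧ (mm a, (nn a)⁻¹) = q}

theorem AA_local (p : ℂ × ℂ) (hp : p ∈ torusC) :
    ∃ f : ℂ × ℂ → ℂ, AnalyticAt ℂ f p ∧ ∀ᶠ q in 𝓝 p, (q ∈ AA ↔ f q = 0) := by
  obtain ⟨δ, hδ, hpr⟩ := proper0 p hp.1 hp.2
  set K : Set ℂ := Qs \ Metric.ball 0 δ with hK
  have hKc : IsCompact K := Qs_compact.diff Metric.isOpen_ball
  have hKD : K ⊆ (Lam : Set ℂ)ᶜ := by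
    intro a ha hL
    have := Qs_lam ha.1 hL
    apply ha.2
    rw [this]
    exact Metric.mem_ball_self hδ
  obtain ⟨O, h1, h2, g, h3, h4⟩ := compact_piece Lam_open hKc hKD (f := mm) (h := nn)
    (fun a ha => mm_an ha) (fun a ha => nn_an ha) (fun a ha => imm ha) p
  refine ⟨g, h3, ?_⟩
  filter_upwards [hpr, h4] with q hq1 hq2
  rw [← hq2]
  constructor
  · rintro ⟨a, ha, e⟩
    obtain ⟨b, hb1, hb2, hb3, hb4⟩ := exists_red a ha
    have e' : (mm b, nn b) = q := by rw [hb3, hb4]; exact e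
    refine ⟨b, h1 ⟨hb1, fun hb => ?_⟩, e'⟩
    rw [Metric.mem_ball, dist_zero_right] at hb
    refine hq1 b hb ?_ e'
    rintro rfl
    exact hb2 Lam.zero_mem
  · rintro ⟨a, ha, e⟩
    exact ⟨a, h2 ha, e⟩

theorem AA_sub : AA ⊆ torusC := by
  rintro q ⟨a, _, rfl⟩
  exact ⟨mm_ne a, nn_ne a⟩

theorem AA_an : IsAnalyticSubset torusC AA := IsAnalyticSubset.one AA_sub AA_local

theorem BB_iff (q : ℂ × ℂ) : q ∈ BB ↔ (q.1, q.2⁻¹) ∈ AA := by
  constructor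
  · rintro ⟨a, ha, rfl⟩
    exact ⟨a, ha, by simp⟩
  · rintro ⟨a, ha, e⟩
    refine ⟨a, ha, ?_⟩
    have e1 : mm a = q.1 := congrArg Prod.fst e
    have e2 : nn a = q.2⁻¹ := congrArg Prod.snd e
    rw [e1, e2, inv_inv]

theorem BB_sub : BB ⊆ torusC := by
  rintro q ⟨a, _, rfl⟩
  exact ⟨mm_ne a, inv_ne_zero (nn_ne a)⟩

theorem BB_local (p : ℂ × ℂ) (hp : p ∈ torusC) :
    ∃ f : ℂ × ℂ → ℂ, AnalyticAt ℂ f p ∧ ∀ᶠ q in 𝓝 p, (q ∈ BB ↔ f q = 0) := by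
  obtain ⟨f, h1, h2⟩ := AA_local (p.1, p.2⁻¹) ⟨hp.1, inv_ne_zero hp.2⟩
  have hi : AnalyticAt ℂ (fun q : ℂ × ℂ => (q.1, q.2⁻¹)) p :=
    analyticAt_fst.prod (analyticAt_snd.inv hp.2)
  refine ⟨fun q => f (q.1, q.2⁻¹), AnalyticAt.comp (g := f) (f := fun q : ℂ × ℂ => (q.1, q.2⁻¹)) h1 hi, ?_⟩
  have ht : Tendsto (fun q : ℂ × ℂ => (q.1, q.2⁻¹)) (𝓝 p) (𝓝 (p.1, p.2⁻¹)) := hi.continuousAt.tendsto
  filter_upwards [ht.eventually h2] with q hq
  rw [BB_iff, hq]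

theorem BB_an : IsAnalyticSubset torusC BB := IsAnalyticSubset.one BB_sub BB_local

end H171FV
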