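import Mathlib
import Pool.Agent.H171R3.FV.Ana
import Pool.Agent.Helper620.Wg.KS

set_option autoImplicit false

open Complex Filter Topology Set Wg

namespace H171FV

theorem not_BA : ¬ BB ⊆ AA := by
  intro hsub
  obtain ⟨δ, hδ, hep⟩ := ep_small (ε := 1 / 4) (by norm_num)
  set K : Set ℂ := Qs \ Metric.ball 0 δ with hK
  have hKc : IsCompact K := Qs_compact.diff Metric.isOpen_ball
  have hKD : ∀ a ∈ K, a ∉ Lam := by
    intro a ha hL
    have := Qs_lam ha.1 hL
    apply ha.2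
    rw [this]
    exact Metric.mem_ball_self hδ
  have hcont : ContinuousOn (fun a => ‖mm a‖) K := fun a ha =>
    ((mm_an (hKD a ha)).continuousAt.norm).continuousWithinAt
  obtain ⟨c, hc0, hc⟩ := hKc.exists_forall_le' hcont (a := 0) (fun a _ => norm_pos_iff.2 (mm_ne a))
  obtain ⟨N, hN⟩ := exists_nat_gt (max (max (1 / δ) 2) (1 / 4 - Real.log c))
  set w : ℝ := Real.pi * (N + 1 / 2) with hw
  have hpi := Real.pi_gt_three
  have hN0 : (0 : ℝ) ≤ N := Nat.cast_nonneg N
  have hwN : (N : ℝ) < w := by rw [hw]; nlinarith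
  have w1 : 1 / δ < w := lt_trans (lt_of_le_of_lt ((le_max_left _ _).trans (le_max_left _ _)) hN) hwN
  have w2 : 2 < w := lt_trans (lt_of_le_of_lt ((le_max_right _ _).trans (le_max_left _ _)) hN) hwN
  have w3 : 1 / 4 - Real.log c < w := lt_trans (lt_of_le_of_lt (le_max_right _ _) hN) hwN
  have w0 : 0 < w := by linarith
  set a : ℂ := ((1 / w : ℝ) : ℂ) with ha
  have hainv : 1 / a = (w : ℂ) := by
    rw [ha]; push_cast; rw [one_div_one_div]
  have han : ‖a‖ = 1 / w := by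
    rw [ha, Complex.norm_real, Real.norm_eq_abs, abs_of_pos (by positivity)]
  have haδ : ‖a‖ < δ := by
    rw [han, div_lt_iff₀ w0]
    rw [div_lt_iff₀ hδ] at w1
    linarith
  have haL : a ∉ Lam := by
    intro h
    have hq : a ∈ Qs := by
      have h1 : |(1 / w : ℝ)| ≤ 1 / 2 := by
        rw [abs_of_pos (by positivity)]
        exact one_div_le_one_div_of_le two_pos w2.le
      refine ⟨?_, ?_⟩
      · rw [ha, ofReal_re]; exact h1
      · rw [ha, ofReal_im]; simp
    have := Qs_lam hq h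
    rw [this, norm_zero] at han
    have : (0 : ℝ) < 1 / w := by positivity
    linarith
  obtain ⟨b0, hb0, e0⟩ := hsub ⟨a, haL, rfl⟩
  obtain ⟨b, hb1, hb2, hb3, hb4⟩ := exists_red b0 hb0
  have e1 : mm b = mm a := by rw [hb3]; exact congrArg Prod.fst e0
  have e2 : nn b = (nn a)⁻¹ := by rw [hb4]; exact congrArg Prod.snd e0
  have k1 : ‖ep a‖ ≤ 1 / 4 := hep a haδ
  have k2 : ‖ep (I * a)‖ ≤ 1 / 4 := hep _ (by simpa using haδ)
  have hbδ : ‖b‖ < δ := by
    by_contra hcon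
    have hbK : b ∈ K := ⟨hb1, by simpa using hcon⟩
    have h1 := hc b hbK
    rw [e1, mm_ep, Complex.norm_exp, sub_re, hainv, ofReal_re] at h1
    have h2 := (Complex.re_le_norm (ep a)).trans k1
    have h3 : Real.exp ((ep a).re - w) < c := by
      rw [← Real.exp_log hc0]
      exact Real.exp_lt_exp.2 (by linarith)
    linarith
  have k3 : ‖ep b‖ ≤ 1 / 4 := hep b hbδ
  have k4 : ‖ep (I * b)‖ ≤ 1 / 4 := hep _ (by simpa using hbδ)
  rw [mm_ep, mm_ep, Complex.exp_eq_exp_iff_exists_int] at e1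
  rw [nn_ep, nn_ep, ← exp_neg, Complex.exp_eq_exp_iff_exists_int] at e2
  obtain ⟨n, hn⟩ := e1
  obtain ⟨m, hm⟩ := e2
  rw [hainv] at hn hm
  have hb' : (2 : ℂ) * w = I * (ep (I * a) + ep (I * b)) - ep b + ep a + 2 * Real.pi * m
      + n * (2 * Real.pi * I) := by
    linear_combination hn - I * hm + (1 / b + w - 2 * Real.pi * m) * I_mul_I
  have hre := congrArg Complex.re hb'
  have r1 := abs_le.1 ((Complex.abs_re_le_norm (ep a)).trans k1)
  have r2 := abs_le.1 ((Complex.abs_im_le_norm (ep (I * a))).trans k2)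
  have r3 := abs_le.1 ((Complex.abs_re_le_norm (ep b)).trans k3)
  have r4 := abs_le.1 ((Complex.abs_im_le_norm (ep (I * b))).trans k4)
  have hre2 : 2 * w = -((ep (I * a)).im + (ep (I * b)).im) - (ep b).re + (ep a).re
      + 2 * Real.pi * m := by
    simpa using hre
  have hint : |Real.pi * ((2 * (N : ℤ) + 1 - 2 * m : ℤ) : ℝ)| ≤ 1 := by
    have : Real.pi * ((2 * (N : ℤ) + 1 - 2 * m : ℤ) : ℝ) = 2 * w - 2 * Real.pi * m := by
      rw [hw]; push_cast; ring
    rw [this, hre2, abs_le]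
    constructor <;> linarith [r1.1, r1.2, r2.1, r2.2, r3.1, r3.2, r4.1, r4.2]
  have hne : (2 * (N : ℤ) + 1 - 2 * m : ℤ) ≠ 0 := by omega
  have h1 : (1 : ℝ) ≤ |((2 * (N : ℤ) + 1 - 2 * m : ℤ) : ℝ)| := by
    exact_mod_cast Int.one_le_abs hne
  rw [abs_mul, abs_of_pos Real.pi_pos] at hint
  nlinarith

theorem not_AB : ¬ AA ⊆ BB := by
  intro h
  apply not_BA
  intro q hq
  have h1 := (BB_iff q).1 hq
  have h2 := (BB_iff _).1 (h h1)
  simpa using h2

theorem quasi_surj {q : ℂ × ℂ} (hq : q ∈ torusC) : ∃ k, quasi k = q := by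
  refine ⟨(log q.1 / (2 * Real.pi * I), log q.2 / (2 * Real.pi * I)), ?_⟩
  unfold quasi
  apply Prod.ext
  · show exp (2 * Real.pi * I * (log q.1 / (2 * Real.pi * I))) = q.1
    rw [mul_div_cancel₀ _ Complex.two_pi_I_ne_zero, exp_log hq.1]
  · show exp (2 * Real.pi * I * (log q.2 / (2 * Real.pi * I))) = q.2
    rw [mul_div_cancel₀ _ Complex.two_pi_I_ne_zero, exp_log hq.2]

theorem quasi_mem (k : ℂ × ℂ) : quasi k ∈ torusC := ⟨exp_ne_zero _, exp_ne_zero _⟩

theorem quasi_shift (k : ℂ × ℂ) (m n : ℤ) : quasi (k.1 + m, k.2 + n) = quasi k := by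
  unfold quasi
  apply Prod.ext
  · show exp (2 * Real.pi * I * (k.1 + m)) = exp (2 * Real.pi * I * k.1)
    rw [Complex.exp_eq_exp_iff_exists_int]
    exact ⟨m, by ring⟩
  · show exp (2 * Real.pi * I * (k.2 + n)) = exp (2 * Real.pi * I * k.2)
    rw [Complex.exp_eq_exp_iff_exists_int]
    exact ⟨n, by ring⟩

theorem quasi_an (p : ℂ × ℂ) : AnalyticAt ℂ quasi p := by
  unfold quasi
  exact ((analyticAt_const.mul analyticAt_fst).cexp).prod ((analyticAt_const.mul analyticAt_snd).cexp)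

theorem lift_an {A : Set (ℂ × ℂ)} (hA : IsAnalyticSubset torusC A) :
    IsAnalyticSubset univ {k | quasi k ∈ A} := by
  refine ⟨subset_univ _, fun p _ => ?_⟩
  obtain ⟨n, f, h1, h2⟩ := hA.2 (quasi p) (quasi_mem p)
  refine ⟨n, fun i k => f i (quasi k), fun i => AnalyticAt.comp (g := f i) (h1 i) (quasi_an p), ?_⟩
  exact (quasi_an p).continuousAt.tendsto.eventually h2

end H171FV
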