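import Mathlib
import Pool.Agent.H171R3.FV.Prop

set_option autoImplicit false

open Complex Filter Topology Set Wg

namespace H171FV

theorem int_shift {f : ℝ → ℂ} {z : ℂ} (hz : z ≠ 0) (h : ∀ x, f (x + 1) = z * f x) :
    ∀ (n : ℤ) (x : ℝ), f (x + n) = z ^ n * f x := by
  intro n
  induction n using Int.induction_on with
  | zero => intro x; simp
  | succ i ih =>
    intro x
    have : x + ((i : ℤ) + 1 : ℤ) = (x + (i : ℤ)) + 1 := by push_cast; ring
    rw [this, h, ih, zpow_add₀ hz]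
    simp; ring
  | pred i ih =>
    intro x
    have h1 := h (x + ((-(i : ℤ) - 1 : ℤ) : ℝ))
    have : x + ((-(i : ℤ) - 1 : ℤ) : ℝ) + 1 = x + ((-(i : ℤ) : ℤ) : ℝ) := by push_cast; ring
    rw [this, ih] at h1
    rw [zpow_sub₀ hz, zpow_one]
    field_simp
    linear_combination -h1

theorem exp_mn (k : ℂ × ℂ) (m n : ℤ) :
    exp (2 * Real.pi * I * (k.1 * m + k.2 * n)) = (quasi k).1 ^ m * (quasi k).2 ^ n := by
  unfold quasi
  rw [← Complex.exp_int_mul, ← Complex.exp_int_mul, ← exp_add]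
  congr 1
  ring

/-- the potential -/
noncomputable def VV (x y : ℝ) : ℝ := vv x + vv y

theorem VV_an : AnalyticOnNhd ℝ (fun p : ℝ × ℝ => VV p.1 p.2) Set.univ := by
  intro p _
  exact (AnalyticAt.comp (g := vv) (f := fun p : ℝ × ℝ => p.1) (vv_an p.1) analyticAt_fst).add
    (AnalyticAt.comp (g := vv) (f := fun p : ℝ × ℝ => p.2) (vv_an p.2) analyticAt_snd)

theorem vv_int (x : ℝ) (m : ℤ) : vv (x + m) = vv x := by
  have h : Function.Periodic vv 1 := vv_per
  have := h.int_mul m x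
  simpa using this

theorem VV_per (m n : ℤ) (x y : ℝ) : VV (x + m) (y + n) = VV x y := by
  unfold VV
  rw [vv_int, vv_int]

theorem int_vv : ((∫ x in (0 : ℝ)..1, vv x : ℝ) : ℂ) = -2 * eta := by
  rw [← intervalIntegral.integral_ofReal]
  have h1 : ∀ x : ℝ, HasDerivAt (fun x : ℝ => -2 * zt ((x : ℂ) + I / 2)) (vv x : ℂ) x := by
    intro x
    have := (line_deriv (zt_deriv (half_notMem x))).const_mul (-2 : ℂ)
    refine this.congr_deriv ?_
    rw [vv_eq]
    ring
  rw [intervalIntegral.integral_eq_sub_of_hasDerivAt (fun x _ => h1 x)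
    (vvC_cont.intervalIntegrable _ _)]
  have h2 : ((1 : ℝ) : ℂ) + I / 2 = (((0 : ℝ) : ℂ) + I / 2) + 1 := by push_cast; ring
  rw [h2, zt_one (half_notMem 0)]
  ring

theorem avg : (0 : ℝ) ≠ ∫ x in (0 : ℝ)..1, ∫ y in (0 : ℝ)..1, VV x y := by
  have h1 : ∀ x, ∫ y in (0 : ℝ)..1, VV x y = vv x + ∫ y in (0 : ℝ)..1, vv y := by
    intro x
    unfold VV
    rw [intervalIntegral.integral_add intervalIntegrable_const (vv_cont.intervalIntegrable _ _)]
    simp
  simp only [h1]
  rw [intervalIntegral.integral_add (vv_cont.intervalIntegrable _ _) intervalIntegrable_const]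
  simp only [intervalIntegral.integral_const, sub_zero, one_smul]
  intro h
  have h2 := congrArg (fun t : ℝ => (t : ℂ)) h
  simp only [ofReal_zero, ofReal_add, int_vv] at h2
  apply eta_ne
  linear_combination h2 / 4

/-- a product solution -/
theorem mem_fermi {a b : ℂ} (ha : a ∉ Lam) (hb : b ∉ Lam) (hab : wp b = - wp a) (r : WithTop ℕ∞)
    (k : ℂ × ℂ) (hk : quasi k = (mm a, mm b)) :
    k ∈ fermi r (fun x y => (VV x y : ℂ)) 0 := by
  refine ⟨fun x y => ph a x * ph b y, ?_, ?_, ?_, ?_⟩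
  · have h1 : ∀ p : ℝ × ℝ, AnalyticAt ℝ (fun p : ℝ × ℝ => ph a p.1 * ph b p.2) p := by
      intro p
      exact (AnalyticAt.comp (g := ph a) (f := fun p : ℝ × ℝ => p.1) (ph_an a p.1) analyticAt_fst).mul
        (AnalyticAt.comp (g := ph b) (f := fun p : ℝ × ℝ => p.2) (ph_an b p.2) analyticAt_snd)
    exact contDiff_iff_contDiffAt.2 fun p => (h1 p).contDiffAt
  · obtain ⟨x, hx⟩ := ph_ne a
    obtain ⟨y, hy⟩ := ph_ne b
    exact ⟨x, y, mul_ne_zero hx hy⟩
  · intro x y
    have d2 : ∀ {a : ℂ} (ha : a ∉ Lam) (c : ℂ) (x : ℝ),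
        iteratedDeriv 2 (fun s => c * ph a s) x = c * (((vv x : ℂ) - -wp a) * ph a x) := by
      intro a ha c x
      have hs := ph_sol ha
      rw [iteratedDeriv_succ, iteratedDeriv_one]
      have e1 : deriv (fun s => c * ph a s) = fun s => c * ph' a s := by
        funext s
        exact ((hs.1 s).const_mul c).deriv
      rw [e1]
      exact ((hs.2 x).const_mul c).deriv
    have e1 : iteratedDeriv 2 (fun s => ph a s * ph b y) x =
        ph b y * (((vv x : ℂ) - -wp a) * ph a x) := by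
      rw [← d2 ha]
      congr 1
      funext s
      ring
    have e2 := d2 hb (ph a x) y
    rw [e1, e2]
    unfold VV
    rw [hab]
    push_cast
    ring
  · intro m n x y
    show ph a (x + m) * ph b (y + n) =
      exp (2 * Real.pi * I * (k.1 * m + k.2 * n)) * (ph a x * ph b y)
    rw [exp_mn, hk, int_shift (mm_ne a) (ph_per a), int_shift (mm_ne b) (ph_per b)]
    ring

theorem fermi_sub (r : WithTop ℕ∞) (hr : 2 ≤ r) (k : ℂ × ℂ)
    (hk : k ∈ fermi r (fun x y => (VV x y : ℂ)) 0) : quasi k ∈ AA ∪ BB := by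
  obtain ⟨u, hu, hne, hpde, hper⟩ := hk
  set U : ℝ × ℝ → ℂ := fun p => u p.1 p.2 with hU
  have hu2 : ContDiff ℝ 2 U := hu.of_le hr
  -- partial derivatives
  have P : ∀ {W : ℝ × ℝ → ℂ} (hW : Differentiable ℝ W) (x y : ℝ),
      HasDerivAt (fun s => W (s, y)) (fderiv ℝ W (x, y) (1, 0)) x := by
    intro W hW x y
    have h1 := (hW (x, y)).hasFDerivAt
    have h2 : HasDerivAt (fun s : ℝ => (s, y)) ((1 : ℝ), (0 : ℝ)) x :=
      (hasDerivAt_id x).prodMk (hasDerivAt_const x y)
    exact h1.comp_hasDerivAt x h2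
  have Q : ∀ {W : ℝ × ℝ → ℂ} (hW : Differentiable ℝ W) (x y : ℝ),
      HasDerivAt (fun s => W (x, s)) (fderiv ℝ W (x, y) (0, 1)) y := by
    intro W hW x y
    have h1 := (hW (x, y)).hasFDerivAt
    have h2 : HasDerivAt (fun s : ℝ => (x, s)) ((0 : ℝ), (1 : ℝ)) y :=
      (hasDerivAt_const y x).prodMk (hasDerivAt_id y)
    exact h1.comp_hasDerivAt y h2
  have R : ∀ v : ℝ × ℝ, ContDiff ℝ 1 (fun p => fderiv ℝ U p v) := by
    intro v
    have : ContDiff ℝ 1 (fderiv ℝ U) := hu2.fderiv_right (by norm_num)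
    exact this.clm_apply contDiff_const
  have S : ∀ v w : ℝ × ℝ, Continuous (fun p => fderiv ℝ (fun p => fderiv ℝ U p v) p w) := by
    intro v w
    exact ((R v).continuous_fderiv one_ne_zero).clm_apply continuous_const
  have hUd : Differentiable ℝ U := hu2.differentiable two_ne_zero
  have h1d : ∀ v : ℝ × ℝ, Differentiable ℝ (fun p => fderiv ℝ U p v) :=
    fun v => (R v).differentiable one_ne_zero
  have hcl : Cl (quasi k).1 (quasi k).2 0 u (fun x y => fderiv ℝ U (x, y) (1, 0))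
      (fun x y => fderiv ℝ (fun p => fderiv ℝ U p (1, 0)) (x, y) (1, 0))
      (fun x y => fderiv ℝ U (x, y) (0, 1))
      (fun x y => fderiv ℝ (fun p => fderiv ℝ U p (0, 1)) (x, y) (0, 1)) := by
    refine ⟨hu2.continuous, (R (1, 0)).continuous, S _ _, (R (0, 1)).continuous, S _ _,
      fun x y => P hUd x y, fun x y => P (h1d (1, 0)) x y, fun x y => Q hUd x y,
      fun x y => Q (h1d (0, 1)) x y, ?_, ?_, ?_⟩
    · intro x y
      have e1 : iteratedDeriv 2 (fun s => u s y) x =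
          fderiv ℝ (fun p => fderiv ℝ U p (1, 0)) (x, y) (1, 0) := by
        rw [iteratedDeriv_succ, iteratedDeriv_one]
        have : deriv (fun s => u s y) = fun s => fderiv ℝ U (s, y) (1, 0) :=
          funext fun s => (P hUd s y).deriv
        rw [this]
        exact (P (h1d (1, 0)) x y).deriv
      have e2 : iteratedDeriv 2 (fun t => u x t) y =
          fderiv ℝ (fun p => fderiv ℝ U p (0, 1)) (x, y) (0, 1) := by
        rw [iteratedDeriv_succ, iteratedDeriv_one]
        have : deriv (fun s => u x s) = fun s => fderiv ℝ U (x, s) (0, 1) :=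
          funext fun s => (Q hUd x s).deriv
        rw [this]
        exact (Q (h1d (0, 1)) x y).deriv
      have h := hpde x y
      rw [e1, e2] at h
      unfold VV at h
      push_cast at h
      linear_combination -h
    · intro x y
      have := hper 1 0 x y
      rw [exp_mn] at this
      simpa using this
    · intro x y
      have := hper 0 1 x y
      rw [exp_mn] at this
      simpa using this
  have hne' : u ≠ 0 := by
    rintro rfl
    obtain ⟨x, y, h⟩ := hne
    exact h rfl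
  have hq := quasi_mem k
  obtain ⟨μ, h1, h2⟩ := sep hcl hq.1 hq.2 hne'
  obtain ⟨a, ha, haμ⟩ := wp_surj L0 (-μ)
  have haL : a ∉ Lam := fun h => ha ((mem_L0 a).2 h)
  have hμ : μ = -wp a := by
    show μ = -L0.weierstrassP a
    rw [haμ]; ring
  have hIa : I * a ∉ Lam := I_mul_notMem haL
  have hμ2 : 0 - μ = -wp (I * a) := by rw [wp_I, hμ]; ring
  rw [hμ, mult_iff haL] at h1
  rw [hμ2, mult_iff hIa] at h2
  have hna : -a ∉ Lam := fun h => haL (neg_mem_iff.1 h)
  have n1 : mm (-a) = (mm a)⁻¹ := mm_neg a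
  have n2 : nn (-a) = (nn a)⁻¹ := by
    unfold nn
    rw [mul_neg, mm_neg]
  have h2' : (quasi k).2 = nn a ∨ (quasi k).2 = (nn a)⁻¹ := h2
  rcases h1 with h1 | h1 <;> rcases h2' with h2 | h2
  · exact Or.inl ⟨a, haL, Prod.ext h1.symm h2.symm⟩
  · exact Or.inr ⟨a, haL, Prod.ext h1.symm h2.symm⟩
  · exact Or.inr ⟨-a, hna, Prod.ext (by rw [n1]; exact h1.symm) (by rw [n2, inv_inv]; exact h2.symm)⟩
  · exact Or.inl ⟨-a, hna, Prod.ext (by rw [n1]; exact h1.symm) (by rw [n2]; exact h2.symm)⟩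

theorem fermi_eq (r : WithTop ℕ∞) (hr : 2 ≤ r) :
    fermi r (fun x y => (VV x y : ℂ)) 0 = {k | quasi k ∈ AA} ∪ {k | quasi k ∈ BB} := by
  apply Subset.antisymm
  · intro k hk
    exact fermi_sub r hr k hk
  · rintro k (⟨a, ha, e⟩ | ⟨a, ha, e⟩)
    · exact mem_fermi ha (I_mul_notMem ha) (wp_I a) r k e.symm
    · have hb : -(I * a) ∉ Lam := fun h => I_mul_notMem ha (neg_mem_iff.1 h)
      refine mem_fermi ha hb (by rw [wp_neg, wp_I]) r k ?_
      rw [← e, mm_neg]
      rfl

theorem main : ∃ (V : ℝ → ℝ → ℝ) (lam : ℝ) (F : Set (ℂ × ℂ)),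
    AnalyticOnNhd ℝ (fun p : ℝ × ℝ => V p.1 p.2) Set.univ ∧
    (∀ (m n : ℤ) (x y : ℝ), V (x + m) (y + n) = V x y) ∧
    lam ≠ ∫ x in (0 : ℝ)..1, ∫ y in (0 : ℝ)..1, V x y ∧
    (∀ r : WithTop ℕ∞, 2 ≤ r → fermi r (fun x y => (V x y : ℂ)) lam = F) ∧
    Reducible torusC (quasi '' F) ∧ ReducibleInvariant F := by
  refine ⟨VV, 0, {k | quasi k ∈ AA} ∪ {k | quasi k ∈ BB}, VV_an, VV_per, avg, ?_, ?_, ?_⟩
  · intro r hr
    rw [ofReal_zero]
    exact fermi_eq r hr
  · have e : quasi '' ({k | quasi k ∈ AA} ∪ {k | quasi k ∈ BB}) = AA ∪ BB := by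
      apply Subset.antisymm
      · rintro _ ⟨k, hk, rfl⟩
        exact hk
      · intro q hq
        obtain ⟨k, rfl⟩ := quasi_surj (q := q) (hq.elim (fun h => AA_sub h) (fun h => BB_sub h))
        exact ⟨k, hq, rfl⟩
    rw [e]
    refine ⟨AA, BB, AA_an, BB_an, rfl, ?_, ?_⟩
    · intro h
      exact not_BA (h ▸ subset_union_right)
    · intro h
      exact not_AB (h ▸ subset_union_left)
  · refine ⟨{k | quasi k ∈ AA}, {k | quasi k ∈ BB}, lift_an AA_an, lift_an BB_an, ?_, ?_, rfl, ?_, ?_⟩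
    · intro k m n
      show quasi _ ∈ AA ↔ quasi k ∈ AA
      rw [quasi_shift]
    · intro k m n
      show quasi _ ∈ BB ↔ quasi k ∈ BB
      rw [quasi_shift]
    · intro h
      apply not_BA
      intro q hq
      obtain ⟨k, rfl⟩ := quasi_surj (BB_sub hq)
      have : k ∈ {k | quasi k ∈ AA} := h ▸ Or.inr hq
      exact this
    · intro h
      apply not_AB
      intro q hq
      obtain ⟨k, rfl⟩ := quasi_surj (AA_sub hq)
      have : k ∈ {k | quasi k ∈ BB} := h ▸ Or.inl hq
      exact this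

end H171FV
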