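import Mathlib
import Pool.Agent.H171R3.FV.Fin
import Pool.Agent.Helper620.Wg.KI

set_option autoImplicit false

open Complex Filter Topology Set Wg

namespace H171FV

theorem vv_deriv (x : ℝ) : HasDerivAt (fun x : ℝ => (vv x : ℂ))
    (2 * L0.derivWeierstrassP ((x : ℂ) + I / 2)) x := by
  have h1 : HasDerivAt wp (L0.derivWeierstrassP ((x : ℂ) + I / 2)) ((x : ℂ) + I / 2) := by
    have hz : (x : ℂ) + I / 2 ∉ L0.lattice := fun h => half_notMem x ((mem_L0 _).1 h)
    have h := (L0.analyticOnNhd_weierstrassP _ hz).differentiableAt.hasDerivAt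
    rwa [L0.deriv_weierstrassP] at h
  have h2 := (line_deriv h1).const_mul 2
  have e : (fun x : ℝ => (vv x : ℂ)) = fun y : ℝ => 2 * wp ((y : ℂ) + I / 2) := by
    funext y
    exact vv_eq y
  rw [e]
  exact h2

theorem vv_nonconst : ∃ x y, vv x ≠ vv y := by
  by_contra hc
  push Not at hc
  have h1 : (fun x : ℝ => (vv x : ℂ)) = fun _ => (vv 0 : ℂ) := by
    funext x
    rw [hc x 0]
  have h2 := vv_deriv (1 / 4)
  rw [h1] at h2
  have h3 := h2.unique (hasDerivAt_const (1 / 4 : ℝ) (vv 0 : ℂ))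
  have h4 : L0.derivWeierstrassP (((1 / 4 : ℝ) : ℂ) + I / 2) = 0 := by
    simpa using h3
  refine wpd_ne L0 _ ?_ h4
  intro h
  obtain ⟨m, n, h5⟩ := (mem_L0 _).1 h
  have h6 := congrArg Complex.re h5
  simp at h6
  have h7 : (1 : ℝ) = 2 * m := by
    rw [← h6]; norm_num
  have h8 : (1 : ℤ) = 2 * m := by exact_mod_cast h7
  omega

theorem VV_nonconst : ∃ x y x' y', VV x y ≠ VV x' y' := by
  obtain ⟨x, y, h⟩ := vv_nonconst
  refine ⟨x, 0, y, 0, fun e => h ?_⟩
  unfold VV at e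
  linarith

end H171FV
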