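import Pool.Agent.H171R3.FV.Fin
import Pool.Agent.H171R3.FV.NonConst

set_option autoImplicit false

open Complex Filter Topology Set Wg

namespace H171FV

/-- the real version: the potential is not constant -/
theorem main_real : ∃ (V : ℝ → ℝ → ℝ) (lam : ℝ) (F : Set (ℂ × ℂ)),
    AnalyticOnNhd ℝ (fun p : ℝ × ℝ => V p.1 p.2) Set.univ ∧
    (∀ (m n : ℤ) (x y : ℝ), V (x + m) (y + n) = V x y) ∧
    (∃ x y x' y' : ℝ, V x y ≠ V x' y') ∧
    (∀ r : WithTop ℕ∞, 2 ≤ r → fermi r (fun x y => (V x y : ℂ)) lam = F) ∧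
    Reducible torusC (quasi '' F) ∧ ReducibleInvariant F := by
  refine ⟨VV, 0, {k | quasi k ∈ AA} ∪ {k | quasi k ∈ BB}, VV_an, VV_per, VV_nonconst, ?_, ?_, ?_⟩
  · intro r hr
    rw [ofReal_zero]
    exact fermi_eq r hr
  · have e : quasi '' ({k | quasi k ∈ AA} ∪ {k | quasi k ∈ BB}) = AA ∪ BB := by
      apply Subset.antisymm
      · rintro _ ⟨k, hk, rfl⟩
        exact hk
      · intro q hq
        obtain ⟨k, rfl⟩ := quasi_surj (q := q) (hq.elim (fun h => AA_sub h) (fun h => BB_sub h))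
        exact ⟨k, hq, rfl⟩
    rw [e]
    refine ⟨AA, BB, AA_an, BB_an, rfl, ?_, ?_⟩
    · intro h
      exact not_BA (h ▸ subset_union_right)
    · intro h
      exact not_AB (h ▸ subset_union_left)
  · refine ⟨{k | quasi k ∈ AA}, {k | quasi k ∈ BB}, lift_an AA_an, lift_an BB_an, ?_, ?_, rfl, ?_, ?_⟩
    · intro k m n
      show quasi _ ∈ AA ↔ quasi k ∈ AA
      rw [quasi_shift]
    · intro k m n
      show quasi _ ∈ BB ↔ quasi k ∈ BB
      rw [quasi_shift]
    · intro h
      apply not_BA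
      intro q hq
      obtain ⟨k, rfl⟩ := quasi_surj (BB_sub hq)
      have : k ∈ {k | quasi k ∈ AA} := h ▸ Or.inr hq
      exact this
    · intro h
      apply not_AB
      intro q hq
      obtain ⟨k, rfl⟩ := quasi_surj (AA_sub hq)
      have : k ∈ {k | quasi k ∈ BB} := h ▸ Or.inl hq
      exact this


end H171FV
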